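import Mathlib
import Pool.Agent.Run7.h4.YM.Weyl2

/-!
# Elements of `SU(N)` which rotate the phase of a line
-/

open Matrix
open scoped Matrix.Norms.Frobenius ComplexConjugate

namespace Run7.h4.DC

open Run7.h4.YM

set_option linter.unusedSectionVars false

noncomputable section

/-- complex matrices -/
abbrev Mt (N : ℕ) : Type := Matrix (Fin N) (Fin N) ℂ

variable {N : ℕ} [NeZero N]

theorem norm_sq_eq (A : Mt N) : ‖A‖ ^ 2 = (trace (A * Aᴴ)).re := by
  have h1 : ‖A‖ = Real.sqrt (∑ i, ∑ j, ‖A i j‖ ^ 2) := by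
    rw [Matrix.frobenius_norm_def, Real.sqrt_eq_rpow]
    simp
  rw [h1, Real.sq_sqrt (Finset.sum_nonneg fun _ _ => Finset.sum_nonneg fun _ _ => sq_nonneg _),
    Matrix.trace]
  simp only [Matrix.diag, Matrix.mul_apply, conjTranspose_apply, Complex.re_sum]
  refine Finset.sum_congr rfl fun i _ => Finset.sum_congr rfl fun j _ => ?_
  rw [RCLike.star_def, Complex.mul_conj, Complex.ofReal_re, Complex.normSq_eq_norm_sq]

theorem norm_SU_mul (V : SU N) (A : Mt N) : ‖V.1 * A‖ = ‖A‖ := by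
  refine (sq_eq_sq₀ (norm_nonneg _) (norm_nonneg _)).mp ?_
  rw [norm_sq_eq, norm_sq_eq, Matrix.conjTranspose_mul, ← Matrix.mul_assoc, Matrix.trace_mul_comm,
    ← Matrix.mul_assoc, ← Matrix.mul_assoc, ← star_eq_conjTranspose V.1, star_mul_self',
    Matrix.one_mul]

theorem norm_mul_SU (V : SU N) (A : Mt N) : ‖A * V.1‖ = ‖A‖ := by
  refine (sq_eq_sq₀ (norm_nonneg _) (norm_nonneg _)).mp ?_
  rw [norm_sq_eq, norm_sq_eq, Matrix.conjTranspose_mul, Matrix.mul_assoc, ← Matrix.mul_assoc V.1,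
    ← star_eq_conjTranspose V.1, mul_star_self', Matrix.one_mul]

theorem norm_conj (V : SU N) (A : Mt N) : ‖V.1 * A * star V.1‖ = ‖A‖ := by
  have h : ‖V.1 * A * (V⁻¹).1‖ = ‖A‖ := by rw [norm_mul_SU, norm_SU_mul]
  exact h

/-- projections on lines -/
def IsP (p : Mt N) : Prop := p * p = p ∧ pᴴ = p ∧ ∀ c : ℂ, (1 + c • p).det = 1 + c

/-- the type of the projections on lines -/
def PT (N : ℕ) [NeZero N] : Type := {p : Mt N // IsP p}

/-- the matrix -/
def gp (a : ℝ) (p : Mt N) : Mt N :=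
  Complex.exp (Complex.I * (a / N)) • (1 + (Complex.exp (-(Complex.I * a)) - 1) • p)

theorem gp_mul {p : Mt N} (hp : p * p = p) (a b : ℝ) : gp a p * gp b p = gp (a + b) p := by
  unfold gp
  rw [smul_mul_smul_comm, ← Complex.exp_add]
  have h1 : Complex.I * ((a : ℂ) / N) + Complex.I * ((b : ℂ) / N) =
      Complex.I * (((a + b : ℝ) : ℂ) / N) := by push_cast; ring
  rw [h1]
  congr 1
  rw [mul_add, mul_one, add_mul, one_mul, smul_mul_smul_comm, hp, add_assoc, ← add_smul, ← add_smul]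
  congr 2
  have h2 : Complex.exp (-(Complex.I * ((a + b : ℝ) : ℂ))) =
      Complex.exp (-(Complex.I * a)) * Complex.exp (-(Complex.I * b)) := by
    rw [← Complex.exp_add]; congr 1; push_cast; ring
  rw [h2]
  ring

theorem gp_zero (p : Mt N) : gp 0 p = 1 := by
  unfold gp
  simp

theorem gp_star {p : Mt N} (hp : pᴴ = p) (a : ℝ) : star (gp a p) = gp (-a) p := by
  unfold gp
  rw [star_smul, star_add, star_one, star_smul, star_eq_conjTranspose p, hp]
  have h1 : star (Complex.exp (Complex.I * ((a : ℂ) / N))) =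
      Complex.exp (Complex.I * (((-a : ℝ) : ℂ) / N)) := by
    rw [RCLike.star_def, ← Complex.exp_conj]
    congr 1
    simp only [map_mul, map_div₀, Complex.conj_I, Complex.conj_ofReal, Complex.conj_natCast]
    push_cast; ring
  have h2 : star (Complex.exp (-(Complex.I * a)) - 1) =
      Complex.exp (-(Complex.I * ((-a : ℝ) : ℂ))) - 1 := by
    rw [RCLike.star_def, map_sub, map_one, ← Complex.exp_conj]
    congr 2
    simp only [map_mul, map_neg, Complex.conj_I, Complex.conj_ofReal]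
    push_cast; ring
  rw [h1, h2]

theorem gp_det {p : Mt N} (hp : IsP p) (a : ℝ) : (gp a p).det = 1 := by
  unfold gp
  have hN : (N : ℂ) ≠ 0 := by exact_mod_cast NeZero.ne N
  rw [Matrix.det_smul, hp.2.2, Fintype.card_fin, ← Complex.exp_nat_mul, add_sub_cancel,
    ← Complex.exp_add, ← Complex.exp_zero]
  congr 1
  field_simp
  ring

/-- the element of the group -/
def G (a : ℝ) (p : PT N) : SU N := ⟨gp a p.1, by
  rw [SU_mem_iff, gp_star p.2.2.1, gp_mul p.2.1, add_neg_cancel, gp_zero]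
  exact ⟨rfl, gp_det p.2 a⟩⟩

theorem G_add (a b : ℝ) (p : PT N) : G a p * G b p = G (a + b) p :=
  Subtype.ext (gp_mul p.2.1 a b)

theorem G_zero (p : PT N) : G 0 p = 1 := Subtype.ext (gp_zero p.1)

theorem G_inv (a : ℝ) (p : PT N) : (G a p)⁻¹ = G (-a) p := by
  rw [inv_eq_iff_mul_eq_one, G_add, add_neg_cancel, G_zero]

/-- conjugation -/
def cj (V : SU N) (p : PT N) : PT N := ⟨V.1 * p.1 * star V.1, by
  have hV := star_mul_self' V
  have hV' := mul_star_self' V
  refine ⟨?_, ?_, fun c => ?_⟩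
  · calc V.1 * p.1 * star V.1 * (V.1 * p.1 * star V.1)
        = V.1 * p.1 * (star V.1 * V.1) * p.1 * star V.1 := by simp only [Matrix.mul_assoc]
      _ = V.1 * (p.1 * p.1) * star V.1 := by rw [hV, Matrix.mul_one]; simp only [Matrix.mul_assoc]
      _ = V.1 * p.1 * star V.1 := by rw [p.2.1]
  · rw [← star_eq_conjTranspose, star_mul, star_mul, star_star, star_eq_conjTranspose p.1, p.2.2.1,
      mul_assoc]
  · have h1 : (1 : Mt N) + c • (V.1 * p.1 * star V.1) = V.1 * (1 + c • p.1) * star V.1 := by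
      rw [mul_add, mul_one, add_mul, hV', Matrix.mul_smul, Matrix.smul_mul]
    rw [h1, Matrix.det_mul, Matrix.det_mul, mul_comm, ← mul_assoc, ← Matrix.det_mul, hV,
      Matrix.det_one, one_mul, p.2.2.2]⟩

theorem G_conj (V : SU N) (a : ℝ) (p : PT N) : V * G a p * V⁻¹ = G a (cj V p) := by
  apply Subtype.ext
  show V.1 * gp a p.1 * star V.1 = gp a (V.1 * p.1 * star V.1)
  unfold gp
  rw [Matrix.mul_smul, Matrix.smul_mul, mul_add, mul_one, add_mul, mul_star_self', Matrix.mul_smul,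
    Matrix.smul_mul]

theorem G_two_pi (j : ℕ) (p : PT N) : (G (2 * Real.pi * j) p).1 =
    Complex.exp (2 * Real.pi * Complex.I * (j / N)) • (1 : Mt N) := by
  show gp _ _ = _
  unfold gp
  have h1 : Complex.exp (-(Complex.I * ((2 * Real.pi * j : ℝ) : ℂ))) = 1 := by
    rw [Complex.exp_eq_one_iff]
    exact ⟨-(j : ℤ), by push_cast; ring⟩
  rw [h1, sub_self, zero_smul, add_zero]
  congr 2
  push_cast
  ring

/-! ### estimates -/

theorem norm_exp_sub (x : ℝ) : ‖Complex.exp (-(Complex.I * x)) - 1‖ ≤ |x| := by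
  have h := Real.norm_exp_I_mul_ofReal_sub_one_le (x := -x)
  have e : Complex.exp (-(Complex.I * x)) = Complex.exp (Complex.I * ((-x : ℝ) : ℂ)) := by
    congr 1; push_cast; ring
  rw [e]
  rw [Real.norm_eq_abs, abs_neg] at h
  exact h

theorem norm_exp_sub2 (x : ℝ) : ‖Complex.exp (-(Complex.I * x)) - 1‖ ≤ 2 := by
  refine (norm_sub_le _ _).trans ?_
  have e : Complex.exp (-(Complex.I * x)) = Complex.exp (((-x : ℝ) : ℂ) * Complex.I) := by
    congr 1; push_cast; ring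
  rw [e, Complex.norm_exp_ofReal_mul_I]
  norm_num

theorem norm_exp_N (a : ℝ) : ‖Complex.exp (Complex.I * ((a : ℂ) / N))‖ = 1 := by
  have e : Complex.exp (Complex.I * ((a : ℂ) / N)) = Complex.exp (((a / N : ℝ) : ℂ) * Complex.I) := by
    congr 1; push_cast; ring
  rw [e, Complex.norm_exp_ofReal_mul_I]

theorem gp_sub (a : ℝ) (p q : Mt N) : gp a p - gp a q =
    (Complex.exp (Complex.I * (a / N)) * (Complex.exp (-(Complex.I * a)) - 1)) • (p - q) := by
  unfold gp
  rw [← smul_sub, mul_smul, smul_sub _ p q]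
  congr 1
  abel

theorem norm_gp_sub (a : ℝ) (p q : Mt N) : ‖gp a p - gp a q‖ =
    ‖Complex.exp (-(Complex.I * a)) - 1‖ * ‖p - q‖ := by
  rw [gp_sub, norm_smul, norm_mul, norm_exp_N, one_mul]

theorem dd_G (a : ℝ) (p q : PT N) : dd (G a p) (G a q) ≤ |a| * ‖p.1 - q.1‖ := by
  rw [dd_eq_norm]
  show ‖gp a p.1 - gp a q.1‖ ≤ _
  rw [norm_gp_sub]
  exact mul_le_mul_of_nonneg_right (norm_exp_sub a) (norm_nonneg _)

theorem dd_G2 (a : ℝ) (p q : PT N) : dd (G a p) (G a q) ≤ 2 * ‖p.1 - q.1‖ := by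
  rw [dd_eq_norm]
  show ‖gp a p.1 - gp a q.1‖ ≤ _
  rw [norm_gp_sub]
  exact mul_le_mul_of_nonneg_right (norm_exp_sub2 a) (norm_nonneg _)

theorem norm_one_le : ‖(1 : Mt N)‖ ≤ N := by
  have h := norm_sq_eq (1 : Mt N)
  rw [Matrix.conjTranspose_one, Matrix.mul_one, Matrix.trace_one, Fintype.card_fin] at h
  simp only [Complex.natCast_re] at h
  have hN : (1 : ℝ) ≤ N := by exact_mod_cast NeZero.one_le (n := N)
  nlinarith [norm_nonneg (1 : Mt N)]

theorem dd_G_one (a : ℝ) (p : PT N) : dd (G a p) 1 ≤ |a| * (1 + ‖p.1‖) := by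
  rw [dd_eq_norm]
  show ‖gp a p.1 - 1‖ ≤ _
  have hN : (0 : ℝ) < N := by exact_mod_cast NeZero.pos N
  have h1 : gp a p.1 - 1 = (Complex.exp (Complex.I * (a / N)) - 1) • (1 : Mt N) +
      (Complex.exp (Complex.I * (a / N)) * (Complex.exp (-(Complex.I * a)) - 1)) • p.1 := by
    unfold gp
    rw [smul_add, mul_smul, sub_smul _ _ (1 : Mt N), one_smul ℂ (1 : Mt N)]
    abel
  rw [h1]
  refine (norm_add_le _ _).trans ?_
  rw [norm_smul, norm_smul, norm_mul, norm_exp_N, one_mul, mul_add, mul_one]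
  refine add_le_add ?_ (mul_le_mul_of_nonneg_right (norm_exp_sub a) (norm_nonneg _))
  have h2 := Real.norm_exp_I_mul_ofReal_sub_one_le (x := a / N)
  have e : Complex.exp (Complex.I * ((a : ℂ) / N)) = Complex.exp (Complex.I * ((a / N : ℝ) : ℂ)) := by
    congr 1; push_cast; ring
  rw [e]
  rw [Real.norm_eq_abs, abs_div, abs_of_pos hN] at h2
  have h3 := mul_le_mul h2 (norm_one_le (N := N)) (norm_nonneg _) (by positivity)
  refine h3.trans (le_of_eq ?_)
  field_simp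

/-- the second order estimate -/
theorem dd_second (a : ℝ) (p q p' q' : PT N) : dd (G (-a) p * G a q) (G (-a) p' * G a q') ≤
    4 * (‖p.1 - p'.1‖ * ‖q.1 - p.1‖) + 2 * ‖(q.1 - p.1) - (q'.1 - p'.1)‖ := by
  rw [dd_eq_norm]
  show ‖gp (-a) p.1 * gp a q.1 - gp (-a) p'.1 * gp a q'.1‖ ≤ _
  have e1 : gp (-a) p.1 * gp a p.1 = 1 := by rw [gp_mul p.2.1, neg_add_cancel, gp_zero]
  have e2 : gp (-a) p'.1 * gp a p'.1 = 1 := by rw [gp_mul p'.2.1, neg_add_cancel, gp_zero]
  have e3 : gp (-a) p.1 * gp a q.1 - gp (-a) p'.1 * gp a q'.1 =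
      (gp (-a) p.1 - gp (-a) p'.1) * (gp a q.1 - gp a p.1) +
      gp (-a) p'.1 * ((gp a q.1 - gp a p.1) - (gp a q'.1 - gp a p'.1)) := by
    have e4 : (gp (-a) p.1 - gp (-a) p'.1) * (gp a q.1 - gp a p.1) +
      gp (-a) p'.1 * ((gp a q.1 - gp a p.1) - (gp a q'.1 - gp a p'.1)) =
      gp (-a) p.1 * gp a q.1 - gp (-a) p.1 * gp a p.1 -
        (gp (-a) p'.1 * gp a q'.1 - gp (-a) p'.1 * gp a p'.1) := by noncomm_ring
    rw [e4, e1, e2]
    abel
  rw [e3]
  refine (norm_add_le _ _).trans (add_le_add ?_ ?_)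
  · refine (norm_mul_le _ _).trans ?_
    rw [norm_gp_sub, norm_gp_sub]
    have h1 := mul_le_mul_of_nonneg_right (norm_exp_sub2 (-a)) (norm_nonneg (p.1 - p'.1))
    have h2 := mul_le_mul_of_nonneg_right (norm_exp_sub2 a) (norm_nonneg (q.1 - p.1))
    have h3 := mul_le_mul h1 h2 (by positivity) (by positivity)
    refine h3.trans (le_of_eq (by ring))
  · have h1 : ‖gp (-a) p'.1 * ((gp a q.1 - gp a p.1) - (gp a q'.1 - gp a p'.1))‖ =
        ‖(gp a q.1 - gp a p.1) - (gp a q'.1 - gp a p'.1)‖ := norm_SU_mul (G (-a) p') _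
    rw [h1, gp_sub, gp_sub, ← smul_sub, norm_smul, norm_mul, norm_exp_N, one_mul]
    exact mul_le_mul_of_nonneg_right (norm_exp_sub2 a) (norm_nonneg _)

theorem dd_comm_le (A B : SU N) : dd (A * B * A⁻¹ * B⁻¹) 1 ≤ 2 * (dd A 1 * dd B 1) := by
  have h1 : dd (A * B * A⁻¹ * B⁻¹) 1 = dd (A * B) (B * A) := by
    have h := dd_mul_right (A * B * A⁻¹ * B⁻¹) 1 (B * A)
    rw [← h]
    congr 1
    · group
    · group
  rw [h1, dd_eq_norm, dd_eq_norm, dd_eq_norm]
  have e : (A * B).1 - (B * A).1 = (A.1 - (1 : SU N).1) * (B.1 - (1 : SU N).1) -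
      (B.1 - (1 : SU N).1) * (A.1 - (1 : SU N).1) := by
    rw [coe_mul', coe_mul', coe_one']
    noncomm_ring
  rw [e]
  refine (norm_sub_le _ _).trans ?_
  have h2 := norm_mul_le (A.1 - (1 : SU N).1) (B.1 - (1 : SU N).1)
  have h3 := norm_mul_le (B.1 - (1 : SU N).1) (A.1 - (1 : SU N).1)
  linarith

end

end Run7.h4.DC
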