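import Mathlib
import Pool.Agent.Run7.h4.DC.Pj
import Pool.Agent.Run7.h4.YM.Vac

/-!
# A field of lines on the torus with a 't Hooft flux
-/

open Matrix
open scoped Matrix.Norms.Frobenius ComplexConjugate

namespace Run7.h4.DC

open Run7.h4.YM

set_option linter.unusedSectionVars false
set_option linter.unusedVariables false

noncomputable section

variable {N : ℕ} [NeZero N]

theorem fin_one_ne (hN : 2 ≤ N) : (1 : Fin N) ≠ 0 := by
  intro h
  have h1 := congrArg Fin.val h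
  rw [Fin.val_one', Fin.val_zero, Nat.mod_eq_of_lt (by omega)] at h1
  exact one_ne_zero h1

/-- matrix units -/
def E (i j : Fin N) : Mt N := Matrix.single i j 1

theorem norm_E (i j : Fin N) : ‖(E i j : Mt N)‖ = 1 := by
  have h := norm_sq_eq (E i j : Mt N)
  unfold E at *
  rw [Matrix.conjTranspose_single, Matrix.single_mul_single_same, Matrix.trace_single_eq_same] at h
  simp only [star_one, mul_one, Complex.one_re] at h
  have h1 := norm_nonneg (Matrix.single i j (1 : ℂ))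
  nlinarith

/-- the projection -/
def pp (N : ℕ) [NeZero N] (c s : ℝ) (w : ℂ) : Mt N :=
  ((c * c : ℝ) : ℂ) • E 0 0 + ((c * s : ℝ) : ℂ) • (conj w • E 0 1 + w • E 1 0) +
    ((s * s : ℝ) : ℂ) • E 1 1

/-- the vector -/
def pv (N : ℕ) [NeZero N] (c s : ℝ) (w : ℂ) : Fin N → ℂ :=
  fun i => if i = 0 then (c : ℂ) else if i = 1 then s * w else 0

theorem pp_eq (hN : 2 ≤ N) (c s : ℝ) {w : ℂ} (hw : ‖w‖ = 1) :
    pp N c s w = vecMulVec (pv N c s w) (star (pv N c s w)) := by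
  have h10 := fin_one_ne hN
  have hww : w * conj w = 1 := by
    rw [Complex.mul_conj, Complex.normSq_eq_norm_sq, hw]; simp
  ext i j
  unfold pp E
  simp only [Matrix.add_apply, Matrix.smul_apply, Matrix.single_apply, Matrix.vecMulVec_apply,
    Pi.star_apply, pv, smul_eq_mul]
  by_cases hi0 : i = 0
  · subst hi0
    by_cases hj0 : j = 0
    · subst hj0
      simp [h10, h10.symm]
    · by_cases hj1 : j = 1
      · subst hj1
        simp [h10, h10.symm]
        ring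
      · have : ¬ (1 = j) := fun h => hj1 h.symm
        have h' : ¬ (0 = j) := fun h => hj0 h.symm
        simp [hj0, hj1, this, h', h10, h10.symm]
  · by_cases hi1 : i = 1
    · subst hi1
      by_cases hj0 : j = 0
      · subst hj0
        simp [h10, h10.symm]
        ring
      · by_cases hj1 : j = 1
        · subst hj1
          simp [h10, h10.symm]
          linear_combination (-(s : ℂ) * s) * hww
        · have : ¬ (1 = j) := fun h => hj1 h.symm
          have h' : ¬ (0 = j) := fun h => hj0 h.symm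
          simp [hj0, hj1, this, h', h10, h10.symm]
    · have : ¬ (1 = i) := fun h => hi1 h.symm
      have h' : ¬ (0 = i) := fun h => hi0 h.symm
      simp [hi0, hi1, this, h']

theorem pv_dot (hN : 2 ≤ N) {c s : ℝ} (hcs : c ^ 2 + s ^ 2 = 1) {w : ℂ} (hw : ‖w‖ = 1) :
    star (pv N c s w) ⬝ᵥ pv N c s w = 1 := by
  have h10 := fin_one_ne hN
  have hww : w * conj w = 1 := by
    rw [Complex.mul_conj, Complex.normSq_eq_norm_sq, hw]; simp
  have h1 : ∀ i : Fin N, star (pv N c s w) i * pv N c s w i =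
      (if i = 0 then (c : ℂ) ^ 2 else 0) + (if i = 1 then (s : ℂ) ^ 2 else 0) := by
    intro i
    simp only [Pi.star_apply, pv]
    by_cases hi0 : i = 0
    · subst hi0
      simp [h10.symm]
      ring
    · by_cases hi1 : i = 1
      · subst hi1
        simp [h10]
        linear_combination ((s : ℂ) * s) * hww
      · simp [hi0, hi1]
  unfold dotProduct
  rw [Finset.sum_congr rfl fun i _ => h1 i, Finset.sum_add_distrib, Finset.sum_ite_eq',
    Finset.sum_ite_eq', if_pos (Finset.mem_univ _), if_pos (Finset.mem_univ _)]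
  have : ((c ^ 2 + s ^ 2 : ℝ) : ℂ) = ((1 : ℝ) : ℂ) := by rw [hcs]
  push_cast at this
  exact this

theorem pp_isP (hN : 2 ≤ N) {c s : ℝ} (hcs : c ^ 2 + s ^ 2 = 1) {w : ℂ} (hw : ‖w‖ = 1) :
    IsP (pp N c s w) := by
  rw [pp_eq hN c s hw]
  have h := pv_dot hN hcs hw
  refine ⟨?_, ?_, fun a => ?_⟩
  · rw [Matrix.vecMulVec_mul_vecMulVec, h]
    simp
  · ext i j
    rw [Matrix.conjTranspose_apply, Matrix.vecMulVec_apply, Matrix.vecMulVec_apply, Pi.star_apply,
      Pi.star_apply, star_mul', star_star, mul_comm]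
  · have e : (1 : Mt N) + a • vecMulVec (pv N c s w) (star (pv N c s w)) =
        1 + replicateCol Unit (a • pv N c s w) * replicateRow Unit (star (pv N c s w)) := by
      rw [← Matrix.vecMulVec_eq, Matrix.smul_vecMulVec]
    rw [e, Matrix.det_one_add_replicateCol_mul_replicateRow, dotProduct_smul, h, smul_eq_mul,
      mul_one]

theorem norm_ei (φ : ℝ) : ‖Complex.exp (Complex.I * φ)‖ = 1 := Complex.norm_exp_I_mul_ofReal φ

/-- the projection with real parameters -/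
def PP (hN : 2 ≤ N) (θ φ : ℝ) : PT N :=
  ⟨pp N (Real.cos θ) (Real.sin θ) (Complex.exp (Complex.I * φ)),
    pp_isP hN (Real.cos_sq_add_sin_sq θ) (norm_ei φ)⟩

theorem ei_sub (φ φ' : ℝ) : ‖Complex.exp (Complex.I * φ) - Complex.exp (Complex.I * φ')‖ ≤
    |φ - φ'| := by
  have h := Real.norm_exp_I_mul_ofReal_sub_one_le (x := φ - φ')
  have e : Complex.exp (Complex.I * φ) - Complex.exp (Complex.I * φ') =
      Complex.exp (Complex.I * φ') * (Complex.exp (Complex.I * ((φ - φ' : ℝ) : ℂ)) - 1) := by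
    rw [mul_sub, ← Complex.exp_add, mul_one]
    congr 2
    push_cast; ring
  rw [e, norm_mul, norm_ei, one_mul]
  exact h

theorem cos_sq_sub (θ θ' : ℝ) : |Real.cos θ * Real.cos θ - Real.cos θ' * Real.cos θ'| ≤ |θ - θ'| := by
  have h1 : Real.cos θ * Real.cos θ - Real.cos θ' * Real.cos θ' =
      -(Real.sin (θ + θ') * Real.sin (θ - θ')) := by
    rw [Real.sin_add, Real.sin_sub]
    nlinarith [Real.sin_sq_add_cos_sq θ, Real.sin_sq_add_cos_sq θ']
  rw [h1, abs_neg, abs_mul]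
  have h2 := Real.abs_sin_le_one (θ + θ')
  have h3 : |Real.sin (θ - θ')| ≤ |θ - θ'| := Real.abs_sin_le_abs
  nlinarith [abs_nonneg (Real.sin (θ - θ')), abs_nonneg (Real.sin (θ + θ'))]

theorem sin_sq_sub (θ θ' : ℝ) : |Real.sin θ * Real.sin θ - Real.sin θ' * Real.sin θ'| ≤ |θ - θ'| := by
  have h1 : Real.sin θ * Real.sin θ - Real.sin θ' * Real.sin θ' =
      -(Real.cos θ * Real.cos θ - Real.cos θ' * Real.cos θ') := by
    nlinarith [Real.sin_sq_add_cos_sq θ, Real.sin_sq_add_cos_sq θ']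
  rw [h1, abs_neg]
  exact cos_sq_sub θ θ'

theorem cs_sub (θ θ' : ℝ) : |Real.cos θ * Real.sin θ - Real.cos θ' * Real.sin θ'| ≤ |θ - θ'| := by
  have h1 : Real.cos θ * Real.sin θ - Real.cos θ' * Real.sin θ' =
      Real.cos (θ + θ') * Real.sin (θ - θ') := by
    rw [Real.cos_add, Real.sin_sub]
    have a := Real.sin_sq_add_cos_sq θ
    have b := Real.sin_sq_add_cos_sq θ'
    linear_combination (-(Real.sin θ * Real.cos θ)) * b + (Real.sin θ' * Real.cos θ') * a
  rw [h1, abs_mul]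
  have h2 := Real.abs_cos_le_one (θ + θ')
  have h3 : |Real.sin (θ - θ')| ≤ |θ - θ'| := Real.abs_sin_le_abs
  nlinarith [abs_nonneg (Real.sin (θ - θ')), abs_nonneg (Real.cos (θ + θ'))]

theorem norm_WE (a : ℝ) (w : ℂ) : ‖((a : ℝ) : ℂ) • (conj w • (E 0 1 : Mt N) + w • E 1 0)‖ ≤
    2 * |a| * ‖w‖ := by
  rw [norm_smul, Complex.norm_real, Real.norm_eq_abs]
  have h := norm_add_le (conj w • (E 0 1 : Mt N)) (w • E 1 0)
  rw [norm_smul, norm_smul, norm_E, norm_E, Complex.norm_conj] at h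
  have := mul_le_mul_of_nonneg_left h (abs_nonneg a)
  linarith

theorem PP_phi (hN : 2 ≤ N) (θ φ φ' : ℝ) : ‖(PP hN θ φ).1 - (PP hN θ φ').1‖ ≤ |φ - φ'| := by
  show ‖pp N _ _ _ - pp N _ _ _‖ ≤ _
  unfold pp
  have e : ∀ (A B C C' : Mt N), (A + C + B) - (A + C' + B) = C - C' := fun A B C C' => by abel
  rw [e, ← smul_sub]
  have e2 : (conj (Complex.exp (Complex.I * φ)) • (E 0 1 : Mt N) + Complex.exp (Complex.I * φ) • E 1 0) -
      (conj (Complex.exp (Complex.I * φ')) • (E 0 1 : Mt N) + Complex.exp (Complex.I * φ') • E 1 0) =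
      conj (Complex.exp (Complex.I * φ) - Complex.exp (Complex.I * φ')) • (E 0 1 : Mt N) +
        (Complex.exp (Complex.I * φ) - Complex.exp (Complex.I * φ')) • E 1 0 := by
    rw [map_sub, sub_smul, sub_smul]
    abel
  rw [e2]
  refine (norm_WE _ _).trans ?_
  have h1 := ei_sub φ φ'
  have h2 : 2 * |Real.cos θ * Real.sin θ| ≤ 1 := by
    rw [abs_mul]
    nlinarith [Real.sin_sq_add_cos_sq θ, sq_nonneg (|Real.cos θ| - |Real.sin θ|), sq_abs (Real.cos θ),
      sq_abs (Real.sin θ)]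
  have h3 := norm_nonneg (Complex.exp (Complex.I * φ) - Complex.exp (Complex.I * φ'))
  nlinarith [abs_nonneg (φ - φ')]

theorem PP_theta (hN : 2 ≤ N) (θ θ' φ : ℝ) : ‖(PP hN θ φ).1 - (PP hN θ' φ).1‖ ≤ 4 * |θ - θ'| := by
  show ‖pp N _ _ _ - pp N _ _ _‖ ≤ _
  unfold pp
  obtain ⟨w, hw⟩ : ∃ w : ℂ, w = Complex.exp (Complex.I * φ) := ⟨_, rfl⟩
  have hw1 : ‖w‖ = 1 := by rw [hw]; exact norm_ei φ
  rw [← hw]
  obtain ⟨W, hW⟩ : ∃ W : Mt N, W = conj w • (E 0 1 : Mt N) + w • E 1 0 := ⟨_, rfl⟩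
  have e : ∀ (a b c a' b' c' : ℝ) (A B C : Mt N), ((a : ℂ) • A + (b : ℂ) • B + (c : ℂ) • C) -
      ((a' : ℂ) • A + (b' : ℂ) • B + (c' : ℂ) • C) =
      ((a - a' : ℝ) : ℂ) • A + ((b - b' : ℝ) : ℂ) • B + ((c - c' : ℝ) : ℂ) • C := by
    intro a b c a' b' c' A B C
    push_cast
    rw [sub_smul, sub_smul, sub_smul]
    abel
  rw [e]
  have h1 := norm_WE (N := N) (Real.cos θ * Real.sin θ - Real.cos θ' * Real.sin θ') w
  have h2 : ‖((Real.cos θ * Real.cos θ - Real.cos θ' * Real.cos θ' : ℝ) : ℂ) • (E 0 0 : Mt N)‖ ≤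
      |θ - θ'| := by
    rw [norm_smul, norm_E, Complex.norm_real, Real.norm_eq_abs, mul_one]
    exact cos_sq_sub θ θ'
  have h3 : ‖((Real.sin θ * Real.sin θ - Real.sin θ' * Real.sin θ' : ℝ) : ℂ) • (E 1 1 : Mt N)‖ ≤
      |θ - θ'| := by
    rw [norm_smul, norm_E, Complex.norm_real, Real.norm_eq_abs, mul_one]
    exact sin_sq_sub θ θ'
  have h4 := cs_sub θ θ'
  rw [hw1, mul_one] at h1
  refine (norm_add₃_le).trans ?_
  linarith

theorem PP_mixed (hN : 2 ≤ N) (θ θ' φ φ' : ℝ) : ‖((PP hN θ φ).1 - (PP hN θ' φ).1) -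
    ((PP hN θ φ').1 - (PP hN θ' φ').1)‖ ≤ 2 * |θ - θ'| * |φ - φ'| := by
  show ‖(pp N _ _ _ - pp N _ _ _) - (pp N _ _ _ - pp N _ _ _)‖ ≤ _
  unfold pp
  have e : ∀ (a b c a' b' c' : ℝ) (A B B' C : Mt N), (((a : ℂ) • A + (b : ℂ) • B + (c : ℂ) • C) -
      ((a' : ℂ) • A + (b' : ℂ) • B + (c' : ℂ) • C)) - (((a : ℂ) • A + (b : ℂ) • B' + (c : ℂ) • C) -
      ((a' : ℂ) • A + (b' : ℂ) • B' + (c' : ℂ) • C)) =
      ((b - b' : ℝ) : ℂ) • (B - B') := by
    intro a b c a' b' c' A B B' C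
    push_cast
    rw [sub_smul, smul_sub, smul_sub]
    abel
  rw [e]
  have e2 : (conj (Complex.exp (Complex.I * φ)) • (E 0 1 : Mt N) + Complex.exp (Complex.I * φ) • E 1 0) -
      (conj (Complex.exp (Complex.I * φ')) • (E 0 1 : Mt N) + Complex.exp (Complex.I * φ') • E 1 0) =
      conj (Complex.exp (Complex.I * φ) - Complex.exp (Complex.I * φ')) • (E 0 1 : Mt N) +
        (Complex.exp (Complex.I * φ) - Complex.exp (Complex.I * φ')) • E 1 0 := by
    rw [map_sub, sub_smul, sub_smul]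
    abel
  rw [e2]
  refine (norm_WE _ _).trans ?_
  have h1 := ei_sub φ φ'
  have h4 := cs_sub θ θ'
  have h5 := mul_le_mul h4 h1 (norm_nonneg _) (abs_nonneg _)
  nlinarith

theorem PP_norm (hN : 2 ≤ N) (θ φ : ℝ) : ‖(PP hN θ φ).1‖ ≤ 2 := by
  show ‖pp N _ _ _‖ ≤ _
  unfold pp
  have h1 := norm_WE (N := N) (Real.cos θ * Real.sin θ) (Complex.exp (Complex.I * φ))
  rw [norm_ei, mul_one] at h1
  have h2 : ‖((Real.cos θ * Real.cos θ : ℝ) : ℂ) • (E 0 0 : Mt N)‖ ≤ Real.cos θ ^ 2 := by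
    rw [norm_smul, norm_E, Complex.norm_real, Real.norm_eq_abs, mul_one, abs_mul_self]
    exact le_of_eq (by ring)
  have h3 : ‖((Real.sin θ * Real.sin θ : ℝ) : ℂ) • (E 1 1 : Mt N)‖ ≤ Real.sin θ ^ 2 := by
    rw [norm_smul, norm_E, Complex.norm_real, Real.norm_eq_abs, mul_one, abs_mul_self]
    exact le_of_eq (by ring)
  refine (norm_add₃_le).trans ?_
  have h4 : 2 * |Real.cos θ * Real.sin θ| ≤ 1 := by
    rw [abs_mul]
    nlinarith [Real.sin_sq_add_cos_sq θ, sq_nonneg (|Real.cos θ| - |Real.sin θ|), sq_abs (Real.cos θ),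
      sq_abs (Real.sin θ)]
  nlinarith [Real.sin_sq_add_cos_sq θ]

theorem PP_zero (hN : 2 ≤ N) (φ : ℝ) : (PP hN 0 φ).1 = E 0 0 := by
  show pp N _ _ _ = _
  unfold pp
  simp

theorem PP_half (hN : 2 ≤ N) (φ : ℝ) : (PP hN (Real.pi / 2) φ).1 = E 1 1 := by
  show pp N _ _ _ = _
  unfold pp
  simp

/-! ### twists -/

/-- conjugation of matrix units with the clock matrix -/
theorem clk_E {ζ a : ℂ} (hζ : ‖ζ‖ = 1) (ha : ‖a‖ = 1) (i j : Fin N) :
    (clk ζ a : Mt N) * E i j * star (clk ζ a : Mt N) = (ζ⁻¹ ^ (i : ℕ) * conj (ζ⁻¹ ^ (j : ℕ))) • E i j := by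
  unfold clk E
  rw [star_eq_conjTranspose, Matrix.diagonal_conjTranspose]
  ext r t
  rw [Matrix.mul_diagonal, Matrix.diagonal_mul, Matrix.smul_apply, Matrix.single_apply]
  have haa : a * conj a = 1 := by
    rw [Complex.mul_conj, Complex.normSq_eq_norm_sq, ha]; simp
  by_cases h : i = r ∧ j = t
  · obtain ⟨rfl, rfl⟩ := h
    rw [if_pos ⟨rfl, rfl⟩, mul_one, smul_eq_mul, mul_one, Pi.star_apply, RCLike.star_def, map_mul]
    linear_combination (ζ⁻¹ ^ (i : ℕ) * conj (ζ⁻¹ ^ (j : ℕ))) * haa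
  · rw [if_neg h]
    simp

theorem fin_val_one (hN : 2 ≤ N) : ((1 : Fin N) : ℕ) = 1 := by
  rw [Fin.val_one', Nat.mod_eq_of_lt (by omega)]

theorem cj_clk (hN : 2 ≤ N) {k : ℕ} {P0 : SU N} {a : ℂ} (ha : ‖a‖ = 1) (hP : P0.1 = clk (om N k) a)
    (θ φ : ℝ) : cj P0 (PP hN θ φ) = PP hN θ (φ - 2 * Real.pi * k / N) := by
  apply Subtype.ext
  show P0.1 * pp N _ _ _ * star P0.1 = pp N _ _ _
  have h1 : ‖om N k‖ = 1 := by
    unfold om
    have e : 2 * (Real.pi : ℂ) * Complex.I * (k / N) = ((2 * Real.pi * (k / N) : ℝ) : ℂ) * Complex.I := by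
      push_cast; ring
    rw [e, Complex.norm_exp_ofReal_mul_I]
  rw [hP]
  unfold pp
  have h00 := clk_E (N := N) h1 ha 0 0
  have h01 := clk_E (N := N) h1 ha 0 1
  have h10 := clk_E (N := N) h1 ha 1 0
  have h11 := clk_E (N := N) h1 ha 1 1
  rw [fin_val_one hN] at h01 h10 h11
  simp only [Fin.val_zero, pow_zero, pow_one, map_one, mul_one, one_mul, one_smul] at h00 h01 h10 h11
  have h2 : conj ((om N k)⁻¹) = om N k := by
    rw [map_inv₀, Complex.inv_def, Complex.conj_conj, Complex.normSq_conj,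
      Complex.normSq_eq_norm_sq, h1]
    simp
  have h3 : (om N k)⁻¹ * conj ((om N k)⁻¹) = 1 := by
    rw [h2, inv_mul_cancel₀]
    intro h0
    rw [h0, norm_zero] at h1
    exact zero_ne_one h1
  rw [h2] at h01
  rw [h3, one_smul] at h11
  have h4 : (om N k)⁻¹ * Complex.exp (Complex.I * φ) =
      Complex.exp (Complex.I * ((φ - 2 * Real.pi * k / N : ℝ) : ℂ)) := by
    unfold om
    rw [← Complex.exp_neg, ← Complex.exp_add]
    congr 1
    push_cast
    ring
  have h5 : om N k * conj (Complex.exp (Complex.I * φ)) =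
      conj (Complex.exp (Complex.I * ((φ - 2 * Real.pi * k / N : ℝ) : ℂ))) := by
    rw [← h4, map_mul, h2]
  simp only [mul_add, add_mul, Matrix.mul_smul, Matrix.smul_mul]
  rw [h00, h01, h10, h11, smul_smul, smul_smul, mul_comm (conj _) (om N k), h5,
    mul_comm _ (om N k)⁻¹, h4]

theorem shf_E (hN : 2 ≤ N) {c : ℂ} (hc : ‖c‖ = 1) :
    (shf c : Mt N) * E 0 0 * star (shf c : Mt N) = E 1 1 := by
  have h10 := fin_one_ne hN
  have hv : ∀ i : Fin N, (shf c : Mt N) i 0 = if i = 1 then 1 else 0 := by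
    intro i
    rw [shf_apply, zero_add, if_neg h10]
  ext i j
  unfold E
  rw [Matrix.mul_apply, Finset.sum_eq_single 0]
  · rw [Matrix.mul_single_apply_same, hv, Matrix.star_apply, hv, Matrix.single_apply]
    by_cases h1 : i = 1
    · by_cases h2 : j = 1
      · simp [h1, h2]
      · have : ¬ (1 = j) := fun h => h2 h.symm
        simp [h1, h2, this]
    · have : ¬ (1 = i) := fun h => h1 h.symm
      simp [h1, this]
  · intro b _ hb
    rw [Matrix.mul_single_apply_of_ne (hbj := hb), zero_mul]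
  · simp

theorem cj_shf (hN : 2 ≤ N) {Q0 : SU N} {c : ℂ} (hc : ‖c‖ = 1) (hQ : Q0.1 = shf c) (φ φ' : ℝ) :
    cj Q0 (PP hN 0 φ) = PP hN (Real.pi / 2) φ' := by
  apply Subtype.ext
  rw [PP_half]
  show Q0.1 * (PP hN 0 φ).1 * star Q0.1 = _
  rw [PP_zero, hQ, shf_E hN hc]

end

end Run7.h4.DC
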