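import Mathlib
import Pool.Agent.Run7.h4.DC.Fib

/-!
# The data of the trial vortex on a fibre
-/

open Matrix
open scoped Matrix.Norms.Frobenius ComplexConjugate

namespace Run7.h4.DC

open Run7.h4.YM

set_option linter.unusedSectionVars false
set_option linter.unusedVariables false

noncomputable section

/-- the coordinate in `[0, 1]`, which jumps between `0` and `1` -/
def zc {l : ℕ} (y : ZMod l) : ℝ := ((if y = 0 then (l : ℝ) else (y.val : ℝ)) - 1) / (l - 1)

theorem zc_zero {l : ℕ} (hl : 2 ≤ l) : zc (0 : ZMod l) = 1 := by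
  unfold zc
  rw [if_pos rfl]
  have : (2 : ℝ) ≤ l := by exact_mod_cast hl
  exact div_self (by linarith)

theorem zc_one {l : ℕ} (hl : 2 ≤ l) : zc (0 + 1 : ZMod l) = 0 := by
  have hf : Fact (1 < l) := ⟨by omega⟩
  unfold zc
  rw [zero_add, if_neg one_ne_zero, ZMod.val_one]
  simp

theorem zc_succ {l : ℕ} (hl : 2 ≤ l) {y : ZMod l} (hy : y ≠ 0) :
    zc (y + 1) = zc y + 1 / (l - 1) := by
  have hf : Fact (1 < l) := ⟨by omega⟩
  have hn : NeZero l := ⟨by omega⟩
  have h2 : (2 : ℝ) ≤ l := by exact_mod_cast hl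
  unfold zc
  rw [if_neg hy, ← add_div]
  congr 1
  by_cases h : y + 1 = 0
  · rw [if_pos h]
    have h1 : y.val + 1 = l := by
      have h3 : (y + 1).val = 0 := by rw [h, ZMod.val_zero]
      rw [ZMod.val_add, ZMod.val_one] at h3
      have h4 := ZMod.val_lt y
      have h5 := Nat.dvd_of_mod_eq_zero h3
      exact le_antisymm (by omega) (Nat.le_of_dvd (by omega) h5)
    have h6 : ((y.val : ℝ)) + 1 = l := by exact_mod_cast h1
    linarith
  · rw [if_neg h]
    have h1 : (y + 1).val = y.val + 1 := by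
      have h4 := ZMod.val_lt y
      have h5 : y.val + 1 ≠ l := by
        intro h6
        apply h
        have h7 : ((y.val + 1 : ℕ) : ZMod l) = 0 := by rw [h6]; exact ZMod.natCast_self l
        rw [Nat.cast_add, ZMod.natCast_zmod_val, Nat.cast_one] at h7
        exact h7
      rw [ZMod.val_add, ZMod.val_one, Nat.mod_eq_of_lt (by omega)]
    rw [h1]
    push_cast
    ring

/-- The data on the fibre: a field `p` of lines, the paths `q2 s`, `q3 s` from `p` at a site to `p` at the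
neighbours. -/
structure FD (N l k : ℕ) [NeZero N] [NeZero l] (ε : ℝ) where
  /-- the line -/
  p : ZMod l × ZMod l → PT N
  /-- the path in direction two -/
  q2 : ℝ → ZMod l × ZMod l → PT N
  /-- the path in direction three -/
  q3 : ℝ → ZMod l × ZMod l → PT N
  /-- the links of the vacuum -/
  V2 : ZMod l × ZMod l → SU N
  /-- the links of the vacuum -/
  V3 : ZMod l × ZMod l → SU N
  q2_zero : ∀ y, q2 0 y = p y
  q3_zero : ∀ y, q3 0 y = p y
  q2_one : ∀ y, q2 1 y = cj (V2 y) (p (y + (1, 0)))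
  q3_one : ∀ y, q3 1 y = cj (V3 y) (p (y + (0, 1)))
  q2_lip : ∀ s s' y, ‖(q2 s y).1 - (q2 s' y).1‖ ≤ ε * |s - s'|
  q3_lip : ∀ s s' y, ‖(q3 s y).1 - (q3 s' y).1‖ ≤ ε * |s - s'|
  q3_mix : ∀ s, 0 ≤ s → s ≤ 1 → ∀ y, ‖((cj (V2 y) (q3 s (y + (1, 0)))).1 -
    (cj (V2 y) (p (y + (1, 0)))).1) - ((q3 s y).1 - (p y).1)‖ ≤ ε ^ 2
  q2_mix : ∀ s, 0 ≤ s → s ≤ 1 → ∀ y, ‖((cj (V3 y) (q2 s (y + (0, 1)))).1 -
    (cj (V3 y) (p (y + (0, 1)))).1) - ((q2 s y).1 - (p y).1)‖ ≤ ε ^ 2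
  norm_p : ∀ y, ‖(p y).1‖ ≤ 2
  twist : ∀ y, ((V2 y * V3 (y + (1, 0)) * (V2 (y + (0, 1)))⁻¹ * (V3 y)⁻¹ : SU N)).1 =
    (if y = 0 then (om N k)⁻¹ else 1) • (1 : Mt N)

theorem cj_one {N : ℕ} [NeZero N] (p : PT N) : cj 1 p = p := by
  apply Subtype.ext
  show (1 : SU N).1 * p.1 * star (1 : SU N).1 = p.1
  rw [coe_one', star_one, one_mul, mul_one]

theorem exists_FD (N k : ℕ) [NeZero N] (hN : 2 ≤ N) (hk : Nat.Coprime k N) :
    ∃ K : ℝ, 0 < K ∧ ∀ (l : ℕ) [NeZero l], 2 ≤ l → Nonempty (FD N l k (K / (l - 1))) := by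
  have hζ := om_prim (N := N) hk
  obtain ⟨P0, Q0, a, c, hP, hQ, ha, hc⟩ := exists_std hζ
  have hNr : (1 : ℝ) ≤ N := by exact_mod_cast NeZero.one_le (n := N)
  have hpi := Real.pi_pos
  obtain ⟨κ, hκ⟩ : ∃ κ : ℝ, κ = 2 * Real.pi * k / N := ⟨_, rfl⟩
  have hκ0 : 0 ≤ κ := by rw [hκ]; positivity
  refine ⟨2 * Real.pi + κ, by positivity, fun l _ hl => ?_⟩
  have hl2 : (2 : ℝ) ≤ l := by exact_mod_cast hl
  obtain ⟨δ, hδ⟩ : ∃ δ : ℝ, δ = 1 / ((l : ℝ) - 1) := ⟨_, rfl⟩
  have hδ0 : 0 < δ := by rw [hδ]; exact div_pos one_pos (by linarith)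
  have hε : (2 * Real.pi + κ) / ((l : ℝ) - 1) = (2 * Real.pi + κ) * δ := by rw [hδ]; ring
  have hom : ∀ z : ℂ, z = om N k → z ≠ 0 := fun z h => by
    rw [h]; unfold om; exact Complex.exp_ne_zero _
  have hle1 : 4 * (Real.pi / 2 * δ) ≤ (2 * Real.pi + κ) / ((l : ℝ) - 1) := by
    rw [hε]; nlinarith
  have hle2 : κ * δ ≤ (2 * Real.pi + κ) / ((l : ℝ) - 1) := by
    rw [hε]; nlinarith
  have hle3 : 2 * (Real.pi / 2 * δ) * (κ * δ) ≤ ((2 * Real.pi + κ) / ((l : ℝ) - 1)) ^ 2 := by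
    have h0 : 0 ≤ (2 * Real.pi + κ) / ((l : ℝ) - 1) := by rw [hε]; positivity
    have h1 : (Real.pi / 2 * δ) ≤ (2 * Real.pi + κ) / ((l : ℝ) - 1) / 4 := by linarith
    have h2 := mul_le_mul h1 hle2 (by positivity) (by linarith)
    nlinarith
  obtain ⟨p, hp⟩ : ∃ p : ZMod l × ZMod l → PT N, p = fun y =>
    PP hN (Real.pi / 2 * zc y.2) (-(κ * zc y.1)) := ⟨_, rfl⟩
  obtain ⟨q2, hq2⟩ : ∃ q2 : ℝ → ZMod l × ZMod l → PT N, q2 = fun s y =>
    if y.1 = 0 then p y else PP hN (Real.pi / 2 * zc y.2) (-(κ * (zc y.1 + s * δ))) := ⟨_, rfl⟩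
  obtain ⟨q3, hq3⟩ : ∃ q3 : ℝ → ZMod l × ZMod l → PT N, q3 = fun s y =>
    if y.2 = 0 then p y else PP hN (Real.pi / 2 * (zc y.2 + s * δ)) (-(κ * zc y.1)) := ⟨_, rfl⟩
  have hpv : ∀ y, p y = PP hN (Real.pi / 2 * zc y.2) (-(κ * zc y.1)) := fun y => by rw [hp]
  have hq2a : ∀ s y, y.1 = 0 → q2 s y = p y := fun s y h => by
    rw [hq2]; simp only [h, if_true]
  have hq2b : ∀ s y, y.1 ≠ 0 → q2 s y =
      PP hN (Real.pi / 2 * zc y.2) (-(κ * (zc y.1 + s * δ))) := fun s y h => by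
    rw [hq2]; simp only [h, if_false]
  have hq3a : ∀ s y, y.2 = 0 → q3 s y = p y := fun s y h => by
    rw [hq3]; simp only [h, if_true]
  have hq3b : ∀ s y, y.2 ≠ 0 → q3 s y =
      PP hN (Real.pi / 2 * (zc y.2 + s * δ)) (-(κ * zc y.1)) := fun s y h => by
    rw [hq3]; simp only [h, if_false]
  obtain ⟨V2, hV2⟩ : ∃ V2 : ZMod l × ZMod l → SU N, V2 = fun y => if y.1 = 0 then P0 else 1 :=
    ⟨_, rfl⟩
  obtain ⟨V3, hV3⟩ : ∃ V3 : ZMod l × ZMod l → SU N, V3 = fun y => if y.2 = 0 then Q0 else 1 :=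
    ⟨_, rfl⟩
  have hV2a : ∀ y, y.1 = 0 → V2 y = P0 := fun y h => by rw [hV2]; simp only [h, if_true]
  have hV2b : ∀ y, y.1 ≠ 0 → V2 y = 1 := fun y h => by rw [hV2]; simp only [h, if_false]
  have hV3a : ∀ y, y.2 = 0 → V3 y = Q0 := fun y h => by rw [hV3]; simp only [h, if_true]
  have hV3b : ∀ y, y.2 ≠ 0 → V3 y = 1 := fun y h => by rw [hV3]; simp only [h, if_false]
  have hclk : ∀ θ φ : ℝ, cj P0 (PP hN θ φ) = PP hN θ (φ - κ) := fun θ φ => by
    rw [hκ]; exact cj_clk hN ha hP θ φ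
  have a1 : ∀ y : ZMod l × ZMod l, (y + (1, 0)).1 = y.1 + 1 := fun y => rfl
  have a2 : ∀ y : ZMod l × ZMod l, (y + (1, 0)).2 = y.2 := fun y => by
    show y.2 + 0 = y.2
    rw [add_zero]
  have a3 : ∀ y : ZMod l × ZMod l, (y + (0, 1)).1 = y.1 := fun y => by
    show y.1 + 0 = y.1
    rw [add_zero]
  have a4 : ∀ y : ZMod l × ZMod l, (y + (0, 1)).2 = y.2 + 1 := fun y => rfl
  -- the field in the direction two across the boundary
  have hc2 : ∀ y : ZMod l × ZMod l, y.1 = 0 → cj P0 (p (y + (1, 0))) = p y := by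
    intro y h
    rw [hpv, hclk, hpv, a1, a2, h, zc_one hl, zc_zero hl]
    congr 1
    ring
  have hc3 : ∀ y : ZMod l × ZMod l, y.2 = 0 → cj Q0 (p (y + (0, 1))) = p y := by
    intro y h
    rw [hpv, hpv, a4, h, zc_one hl, zc_zero hl, mul_zero, mul_one]
    exact cj_shf hN hc hQ _ _
  refine ⟨⟨p, q2, q3, V2, V3, ?_, ?_, ?_, ?_, ?_, ?_, ?_, ?_, ?_, ?_⟩⟩
  · intro y
    by_cases h : y.1 = 0
    · exact hq2a 0 y h
    · rw [hq2b 0 y h, zero_mul, add_zero, hpv]
  · intro y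
    by_cases h : y.2 = 0
    · exact hq3a 0 y h
    · rw [hq3b 0 y h, zero_mul, add_zero, hpv]
  · intro y
    by_cases h : y.1 = 0
    · rw [hq2a 1 y h, hV2a y h, hc2 y h]
    · rw [hq2b 1 y h, hV2b y h, cj_one, hpv, a1, a2, zc_succ hl h, one_mul, hδ]
  · intro y
    by_cases h : y.2 = 0
    · rw [hq3a 1 y h, hV3a y h, hc3 y h]
    · rw [hq3b 1 y h, hV3b y h, cj_one, hpv, a3, a4, zc_succ hl h, one_mul, hδ]
  · intro s s' y
    by_cases h : y.1 = 0
    · rw [hq2a s y h, hq2a s' y h, sub_self, norm_zero]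
      exact mul_nonneg (by rw [hε]; positivity) (abs_nonneg _)
    · rw [hq2b s y h, hq2b s' y h]
      refine (PP_phi hN _ _ _).trans ?_
      have e : -(κ * (zc y.1 + s * δ)) - -(κ * (zc y.1 + s' * δ)) = -(κ * δ) * (s - s') := by ring
      rw [e, abs_mul, abs_neg, abs_of_nonneg (by positivity)]
      exact mul_le_mul_of_nonneg_right hle2 (abs_nonneg _)
  · intro s s' y
    by_cases h : y.2 = 0
    · rw [hq3a s y h, hq3a s' y h, sub_self, norm_zero]
      exact mul_nonneg (by rw [hε]; positivity) (abs_nonneg _)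
    · rw [hq3b s y h, hq3b s' y h]
      refine (PP_theta hN _ _ _).trans ?_
      have e : Real.pi / 2 * (zc y.2 + s * δ) - Real.pi / 2 * (zc y.2 + s' * δ) =
          (Real.pi / 2 * δ) * (s - s') := by ring
      rw [e, abs_mul, abs_of_nonneg (by positivity : 0 ≤ Real.pi / 2 * δ), ← mul_assoc]
      exact mul_le_mul_of_nonneg_right hle1 (abs_nonneg _)
  · intro s hs0 hs1 y
    by_cases h2 : y.2 = 0
    · rw [hq3a s y h2, hq3a s (y + (1, 0)) (by rw [a2]; exact h2), sub_self, sub_self, sub_self,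
        norm_zero]
      exact sq_nonneg _
    · have h2' : (y + (1, 0)).2 ≠ 0 := by rw [a2]; exact h2
      by_cases h1 : y.1 = 0
      · rw [hV2a y h1, hc2 y h1, hq3b s _ h2', hclk, hq3b s y h2, a1, a2, h1, zc_one hl, zc_zero hl]
        have e : -(κ * 0) - κ = -(κ * 1) := by ring
        rw [e, sub_self, norm_zero]
        exact sq_nonneg _
      · rw [hV2b y h1, cj_one, cj_one, hq3b s _ h2', hq3b s y h2, hpv, hpv, a1, a2, zc_succ hl h1,
          ← hδ]
        refine (PP_mixed hN _ _ _ _).trans ?_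
        have e1 : Real.pi / 2 * (zc y.2 + s * δ) - Real.pi / 2 * zc y.2 = (Real.pi / 2 * δ) * s := by
          ring
        have e2 : -(κ * (zc y.1 + δ)) - -(κ * zc y.1) = -(κ * δ) := by ring
        rw [e1, e2, abs_neg, abs_of_nonneg (by positivity : 0 ≤ κ * δ),
          abs_of_nonneg (by positivity : 0 ≤ Real.pi / 2 * δ * s)]
        refine le_trans ?_ hle3
        have h5 : 0 ≤ (Real.pi / 2 * δ) * (κ * δ) := by positivity
        nlinarith
  · intro s hs0 hs1 y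
    by_cases h1 : y.1 = 0
    · rw [hq2a s y h1, hq2a s (y + (0, 1)) (by rw [a3]; exact h1), sub_self, sub_self, sub_self,
        norm_zero]
      exact sq_nonneg _
    · have h1' : (y + (0, 1)).1 ≠ 0 := by rw [a3]; exact h1
      by_cases h2 : y.2 = 0
      · have e1 : (q2 s y).1 = (p y).1 := by
          rw [hq2b s y h1, hpv, h2, zc_zero hl, mul_one, PP_half, PP_half]
        have e2 : q2 s (y + (0, 1)) = p (y + (0, 1)) := by
          apply Subtype.ext
          rw [hq2b s _ h1', hpv, a4, h2, zc_one hl, mul_zero, PP_zero, PP_zero]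
        rw [e1, e2, sub_self, sub_self, sub_self, norm_zero]
        exact sq_nonneg _
      · rw [hV3b y h2, cj_one, cj_one, hq2b s _ h1', hq2b s y h1, hpv, hpv, a3, a4, zc_succ hl h2,
          ← hδ]
        have e0 : ∀ A B C D : Mt N, (A - B) - (C - D) = (A - C) - (B - D) := fun A B C D => by abel
        rw [e0]
        refine (PP_mixed hN _ _ _ _).trans ?_
        have e1 : Real.pi / 2 * (zc y.2 + δ) - Real.pi / 2 * zc y.2 = (Real.pi / 2 * δ) := by
          ring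
        have e2 : -(κ * (zc y.1 + s * δ)) - -(κ * zc y.1) = -(κ * δ * s) := by ring
        rw [e1, e2, abs_neg, abs_of_nonneg (by positivity : 0 ≤ κ * δ * s),
          abs_of_nonneg (by positivity : 0 ≤ Real.pi / 2 * δ)]
        refine le_trans ?_ hle3
        have h5 : 0 ≤ (Real.pi / 2 * δ) * (κ * δ) := by positivity
        nlinarith
  · intro y
    rw [hpv]
    exact PP_norm hN _ _
  · intro y
    have hPQ : (Q0 * P0).1 = om N k • (P0 * Q0).1 := by
      rw [coe_mul', coe_mul', hP, hQ]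
      exact clk_shf (hζ.pow_eq_one) a c
    by_cases h1 : y.1 = 0
    · by_cases h2 : y.2 = 0
      · have hy : y = 0 := Prod.ext h1 h2
        rw [if_pos hy, hV2a y h1, hV3a y h2, hV3a _ (by rw [a2]; exact h2),
          hV2a _ (by rw [a3]; exact h1)]
        have h3 : cz hζ 1 * (P0 * Q0) = Q0 * P0 := by
          apply Subtype.ext
          rw [hPQ, coe_mul' (cz hζ 1), cz_val, pow_one, smul_mul_assoc, one_mul]
        have h4 : P0 * Q0 * P0⁻¹ * Q0⁻¹ = (cz hζ 1)⁻¹ := by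
          have h5 : P0 * Q0 = (cz hζ 1)⁻¹ * (Q0 * P0) := by rw [← h3]; group
          rw [h5]; group
        rw [h4, coe_inv', cz_val, pow_one, star_smul, star_one]
        congr 1
        have h6 : ‖om N k‖ = 1 := hζ.norm'_eq_one (NeZero.ne N)
        rw [RCLike.star_def, Complex.inv_def, Complex.normSq_eq_norm_sq, h6]
        simp
      · have hy : ¬ y = 0 := fun h => h2 (by rw [h]; rfl)
        rw [if_neg hy, hV2a y h1, hV3b y h2, hV3b _ (by rw [a2]; exact h2),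
          hV2a _ (by rw [a3]; exact h1), mul_one, mul_inv_cancel, one_mul, inv_one, one_smul]
        rfl
    · have hy : ¬ y = 0 := fun h => h1 (by rw [h]; rfl)
      by_cases h2 : y.2 = 0
      · rw [if_neg hy, hV2b y h1, hV3a y h2, hV3a _ (by rw [a2]; exact h2),
          hV2b _ (by rw [a3]; exact h1), one_mul, inv_one, mul_one, mul_inv_cancel, one_smul]
        rfl
      · rw [if_neg hy, hV2b y h1, hV3b y h2, hV3b _ (by rw [a2]; exact h2),
          hV2b _ (by rw [a3]; exact h1), one_smul]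
        simp

end

end Run7.h4.DC
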