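import Mathlib
import Pool.Agent.Run7.h4.DC.Fd

/-!
# The plaquettes of the trial vortex
-/

open Matrix
open scoped Matrix.Norms.Frobenius ComplexConjugate

namespace Run7.h4.DC

open Run7.h4.YM

set_option linter.unusedSectionVars false
set_option linter.unusedVariables false

noncomputable section

section gen

variable {N : ℕ} [NeZero N] {p p' : PT N} {q : ℝ → PT N} {V : SU N} {ε : ℝ}

theorem G_neg_mul (a : ℝ) (p : PT N) : G (-a) p * G a p = 1 := by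
  rw [G_add, neg_add_cancel, G_zero]

theorem G_center (j : ℕ) (p q : PT N) : G (2 * Real.pi * j) p = G (2 * Real.pi * j) q := by
  apply Subtype.ext
  rw [G_two_pi, G_two_pi]

theorem A_center (j : ℕ) (p q : PT N) :
    G (-(2 * Real.pi * j)) p * G (2 * Real.pi * j) q = 1 := by
  rw [G_center j q p, G_neg_mul]

theorem pl0_zero (h0 : q 0 = p) (h1 : q 1 = cj V p') (a : ℝ) :
    G (-a) p * (G (-a) p * G a (q 0) * V) * (G (-a) p')⁻¹ * (G (-a) p * G a (q 1) * V)⁻¹ = 1 := by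
  rw [h0, h1, G_neg_mul, ← G_conj, G_inv, neg_neg]
  group

theorem pl0_gen (hl : ∀ s s', ‖(q s).1 - (q s').1‖ ≤ ε * |s - s'|) (a s s' : ℝ) :
    dd (1 * (G (-a) p * G a (q s') * V) * 1⁻¹ * (G (-a) p * G a (q s) * V)⁻¹) 1 ≤
      2 * (ε * |s' - s|) := by
  have e : dd (1 * (G (-a) p * G a (q s') * V) * 1⁻¹ * (G (-a) p * G a (q s) * V)⁻¹) 1 =
      dd (G a (q s')) (G a (q s)) := by
    have h1 := dd_mul_right (1 * (G (-a) p * G a (q s') * V) * 1⁻¹ * (G (-a) p * G a (q s) * V)⁻¹) 1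
      (G (-a) p * G a (q s) * V)
    rw [← h1]
    have h2 : 1 * (G (-a) p * G a (q s') * V) * 1⁻¹ * (G (-a) p * G a (q s) * V)⁻¹ *
        (G (-a) p * G a (q s) * V) = G (-a) p * G a (q s') * V := by group
    rw [h2, one_mul, dd_mul_right, dd_mul_left]
  rw [e]
  refine (dd_G2 _ _ _).trans ?_
  exact mul_le_mul_of_nonneg_left (hl s' s) (by norm_num)

theorem pl1_gen (hε : 0 ≤ ε) (h0 : q 0 = p) (h1 : q 1 = cj V p')
    (hl : ∀ s s', ‖(q s).1 - (q s').1‖ ≤ ε * |s - s'|) (a Δ : ℝ) {s : ℝ} (hs0 : 0 ≤ s)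
    (hs1 : s ≤ 1) :
    dd (G (s * Δ) p * (G (-(a + Δ)) p * G (a + Δ) (q s) * V) * (G (s * Δ) p')⁻¹ *
      (G (-a) p * G a (q s) * V)⁻¹) 1 ≤ 2 * (1 - s) * |Δ| * ε := by
  have e1 : G (s * Δ) p * (G (-(a + Δ)) p * G (a + Δ) (q s) * V) * (G (s * Δ) p')⁻¹ *
      (G (-a) p * G a (q s) * V)⁻¹ = (G (-a) p) *
        (G (s * Δ - Δ) p * G (a + Δ) (q s) * G (-(s * Δ)) (q 1) * G (-a) (q s)) * (G (-a) p)⁻¹ := by
    have e2 : G (-(s * Δ)) (q 1) = V * (G (s * Δ) p')⁻¹ * V⁻¹ := by rw [G_inv, G_conj, h1]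
    have e3 : G (-a) p * G (s * Δ - Δ) p = G (s * Δ) p * G (-(a + Δ)) p := by
      rw [G_add, G_add]; congr 1; ring
    have e4 : G (-a) (q s) = (G a (q s))⁻¹ := (G_inv _ _).symm
    rw [e2, e4]
    have e5 : G (-a) p * (G (s * Δ - Δ) p * G (a + Δ) (q s) * (V * (G (s * Δ) p')⁻¹ * V⁻¹) *
        (G a (q s))⁻¹) * (G (-a) p)⁻¹ = (G (-a) p * G (s * Δ - Δ) p) * G (a + Δ) (q s) *
        (V * (G (s * Δ) p')⁻¹ * V⁻¹) * (G a (q s))⁻¹ * (G (-a) p)⁻¹ := by group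
    rw [e5, e3]
    group
  have e2 : ∀ A B : SU N, dd (A * B * A⁻¹) 1 = dd B 1 := by
    intro A B
    have h := dd_mul_right (A * B * A⁻¹) 1 A
    rw [← h, inv_mul_cancel_right, one_mul]
    have h' := dd_mul_left B 1 A
    rw [mul_one] at h'
    exact h'
  rw [e1, e2]
  have e3 : dd (G (s * Δ - Δ) p * G (a + Δ) (q s) * G (-(s * Δ)) (q 1) * G (-a) (q s)) 1 ≤
      dd (G (-(s * Δ)) (q 1)) (G (-(s * Δ)) (q s)) +
      dd (G (s * Δ - Δ) p * G (a + Δ) (q s) * G (-(s * Δ)) (q s) * G (-a) (q s)) 1 := by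
    refine (dd_triangle _ (G (s * Δ - Δ) p * G (a + Δ) (q s) * G (-(s * Δ)) (q s) * G (-a) (q s))
      _).trans ?_
    rw [dd_mul_right, dd_mul_left]
  have e4 : G (s * Δ - Δ) p * G (a + Δ) (q s) * G (-(s * Δ)) (q s) * G (-a) (q s) =
      G (s * Δ - Δ) p * G (-(s * Δ - Δ)) (q s) := by
    rw [mul_assoc, mul_assoc, G_add, G_add]
    congr 2
    ring
  have e5 : dd (G (s * Δ - Δ) p * G (-(s * Δ - Δ)) (q s)) 1 = dd (G (s * Δ - Δ) p)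
      (G (s * Δ - Δ) (q s)) := by
    have h := dd_mul_right (G (s * Δ - Δ) p * G (-(s * Δ - Δ)) (q s)) 1 (G (s * Δ - Δ) (q s))
    rw [← h, mul_assoc, G_neg_mul, mul_one, one_mul]
  rw [e4, e5] at e3
  refine e3.trans ?_
  have h2 := dd_G (-(s * Δ)) (q 1) (q s)
  have h3 := dd_G (s * Δ - Δ) p (q s)
  have h4 := hl 1 s
  have h5 := hl 0 s
  rw [h0] at h5
  rw [abs_of_nonneg (by linarith)] at h4
  rw [zero_sub, abs_neg, abs_of_nonneg hs0] at h5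
  have e6 : |s * Δ - Δ| = (1 - s) * |Δ| := by
    have : s * Δ - Δ = -((1 - s) * Δ) := by ring
    rw [this, abs_neg, abs_mul, abs_of_nonneg (by linarith)]
  rw [abs_neg, abs_mul, abs_of_nonneg hs0] at h2
  rw [e6] at h3
  have h6 := mul_le_mul_of_nonneg_left h4 (by positivity : 0 ≤ s * |Δ|)
  have h7 := mul_le_mul_of_nonneg_left h5 (mul_nonneg (by linarith) (abs_nonneg Δ) :
    0 ≤ (1 - s) * |Δ|)
  have h8 : s * |Δ| * (ε * (1 - s)) ≤ (1 - s) * |Δ| * ε := by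
    have : 0 ≤ (1 - s) * |Δ| * ε := mul_nonneg (mul_nonneg (by linarith) (abs_nonneg _)) hε
    nlinarith
  have h9 : (1 - s) * |Δ| * (ε * s) ≤ (1 - s) * |Δ| * ε := by
    have : 0 ≤ (1 - s) * |Δ| * ε := mul_nonneg (mul_nonneg (by linarith) (abs_nonneg _)) hε
    nlinarith
  linarith

end gen

section fibre

variable {N l k : ℕ} [NeZero N] [NeZero l] {ε : ℝ} (D : FD N l k ε)

/-- the links in direction two -/
def U2 (a s : ℝ) (y : ZMod l × ZMod l) : SU N := G (-a) (D.p y) * G a (D.q2 s y) * D.V2 y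

/-- the links in direction three -/
def U3 (a s : ℝ) (y : ZMod l × ZMod l) : SU N := G (-a) (D.p y) * G a (D.q3 s y) * D.V3 y

/-- the plaquette of the fibre -/
def P23 (a s : ℝ) (y : ZMod l × ZMod l) : SU N :=
  U2 D a s y * U3 D a s (y + (1, 0)) * (U2 D a s (y + (0, 1)))⁻¹ * (U3 D a s y)⁻¹

theorem tz_twist (hζ : IsPrimitiveRoot (om N k) N) (y : ZMod l × ZMod l) :
    tz hζ y * (D.V2 y * D.V3 (y + (1, 0)) * (D.V2 (y + (0, 1)))⁻¹ * (D.V3 y)⁻¹) = 1 := by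
  apply Subtype.ext
  rw [coe_mul' (tz hζ y), D.twist, coe_one']
  unfold tz
  have h0 : om N k ≠ 0 := hζ.ne_zero (NeZero.ne N)
  by_cases h : y = 0
  · rw [if_pos h, if_pos h, cz_val, pow_one, smul_mul_smul_comm, one_mul, mul_inv_cancel₀ h0,
      one_smul]
  · rw [if_neg h, if_neg h, one_smul, mul_one]
    rfl

theorem tz_comm (hζ : IsPrimitiveRoot (om N k) N) (y : ZMod l × ZMod l) (g : SU N) :
    tz hζ y * g = g * tz hζ y := by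
  unfold tz
  split_ifs
  · exact cz_comm hζ 1 g
  · rw [one_mul, mul_one]

theorem U2_one (a : ℝ) (y : ZMod l × ZMod l) :
    U2 D a 1 y = G (-a) (D.p y) * D.V2 y * G a (D.p (y + (1, 0))) := by
  unfold U2
  rw [D.q2_one, ← G_conj]
  group

theorem U3_one (a : ℝ) (y : ZMod l × ZMod l) :
    U3 D a 1 y = G (-a) (D.p y) * D.V3 y * G a (D.p (y + (0, 1))) := by
  unfold U3
  rw [D.q3_one, ← G_conj]
  group

theorem P23_one (hζ : IsPrimitiveRoot (om N k) N) (a : ℝ) (y : ZMod l × ZMod l) :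
    tz hζ y * P23 D a 1 y = 1 := by
  have h := tz_twist D hζ y
  unfold P23
  rw [U2_one, U3_one, U2_one, U3_one]
  have e : y + (1, 0) + (0, 1) = y + (0, 1) + (1, 0) := add_right_comm _ _ _
  rw [e]
  obtain ⟨g, hg⟩ : ∃ g : SU N, g = G a (D.p (y + (0, 1) + (1, 0))) := ⟨_, rfl⟩
  obtain ⟨g1, hg1⟩ : ∃ g : SU N, g = G a (D.p (y + (1, 0))) := ⟨_, rfl⟩
  obtain ⟨g2, hg2⟩ : ∃ g : SU N, g = G a (D.p (y + (0, 1))) := ⟨_, rfl⟩
  obtain ⟨g0, hg0⟩ : ∃ g : SU N, g = G a (D.p y) := ⟨_, rfl⟩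
  have i1 : G (-a) (D.p (y + (1, 0))) = g1⁻¹ := by rw [hg1, G_inv]
  have i2 : G (-a) (D.p (y + (0, 1))) = g2⁻¹ := by rw [hg2, G_inv]
  have i0 : G (-a) (D.p y) = g0⁻¹ := by rw [hg0, G_inv]
  rw [i1, i2, i0, ← hg, ← hg1, ← hg2]
  obtain ⟨z, hz⟩ : ∃ z : SU N, z = tz hζ y := ⟨_, rfl⟩
  have hc := tz_comm hζ y g0⁻¹
  rw [← hz] at hc h ⊢
  have e2 : z * (g0⁻¹ * D.V2 y * g1 * (g1⁻¹ * D.V3 (y + (1, 0)) * g) *
      (g2⁻¹ * D.V2 (y + (0, 1)) * g)⁻¹ * (g0⁻¹ * D.V3 y * g2)⁻¹) =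
      (z * g0⁻¹) * (D.V2 y * D.V3 (y + (1, 0)) * (D.V2 (y + (0, 1)))⁻¹ * (D.V3 y)⁻¹) * g0 := by
    group
  rw [e2, hc]
  have e3 : g0⁻¹ * z * (D.V2 y * D.V3 (y + (1, 0)) * (D.V2 (y + (0, 1)))⁻¹ * (D.V3 y)⁻¹) * g0 =
      g0⁻¹ * (z * (D.V2 y * D.V3 (y + (1, 0)) * (D.V2 (y + (0, 1)))⁻¹ * (D.V3 y)⁻¹)) * g0 := by
    group
  rw [e3, h]
  group

theorem P23_center (hζ : IsPrimitiveRoot (om N k) N) (j : ℕ) (s : ℝ) (y : ZMod l × ZMod l) :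
    tz hζ y * P23 D (2 * Real.pi * j) s y = 1 := by
  unfold P23 U2 U3
  rw [A_center, A_center, A_center, A_center, one_mul, one_mul, one_mul, one_mul]
  exact tz_twist D hζ y

theorem P23_gen (hζ : IsPrimitiveRoot (om N k) N) (hε : 0 ≤ ε) (a : ℝ) {s : ℝ} (hs0 : 0 ≤ s)
    (hs1 : s ≤ 1) (y : ZMod l × ZMod l) : dd (tz hζ y * P23 D a s y) 1 ≤ 20 * ε ^ 2 := by
  obtain ⟨A2, hA2⟩ : ∃ A : SU N, A = G (-a) (D.p y) * G a (D.q2 s y) := ⟨_, rfl⟩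
  obtain ⟨A3, hA3⟩ : ∃ A : SU N, A = G (-a) (D.p y) * G a (D.q3 s y) := ⟨_, rfl⟩
  obtain ⟨B3, hB3⟩ : ∃ A : SU N, A = G (-a) (cj (D.V2 y) (D.p (y + (1, 0)))) *
    G a (cj (D.V2 y) (D.q3 s (y + (1, 0)))) := ⟨_, rfl⟩
  obtain ⟨B2, hB2⟩ : ∃ A : SU N, A = G (-a) (cj (D.V3 y) (D.p (y + (0, 1)))) *
    G a (cj (D.V3 y) (D.q2 s (y + (0, 1)))) := ⟨_, rfl⟩
  have b3 : G (-a) (D.p (y + (1, 0))) * G a (D.q3 s (y + (1, 0))) = (D.V2 y)⁻¹ * B3 * D.V2 y := by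
    rw [hB3, ← G_conj, ← G_conj]; group
  have b2 : G (-a) (D.p (y + (0, 1))) * G a (D.q2 s (y + (0, 1))) = (D.V3 y)⁻¹ * B2 * D.V3 y := by
    rw [hB2, ← G_conj, ← G_conj]; group
  have h := tz_twist D hζ y
  have hc : ∀ g : SU N, tz hζ y * g = g * tz hζ y := tz_comm hζ y
  have e : tz hζ y * P23 D a s y = A2 * B3 * B2⁻¹ * A3⁻¹ := by
    unfold P23 U2 U3
    rw [b3, b2, ← hA2, ← hA3]
    obtain ⟨z, hz⟩ : ∃ z : SU N, z = tz hζ y := ⟨_, rfl⟩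
    rw [← hz] at hc h ⊢
    have e2 : z * (A2 * D.V2 y * ((D.V2 y)⁻¹ * B3 * D.V2 y * D.V3 (y + (1, 0))) *
        ((D.V3 y)⁻¹ * B2 * D.V3 y * D.V2 (y + (0, 1)))⁻¹ * (A3 * D.V3 y)⁻¹) =
        (z * (A2 * B3)) * (D.V2 y * D.V3 (y + (1, 0)) * (D.V2 (y + (0, 1)))⁻¹ * (D.V3 y)⁻¹) *
          (B2⁻¹ * A3⁻¹) := by group
    rw [e2, hc]
    have e3 : A2 * B3 * z * (D.V2 y * D.V3 (y + (1, 0)) * (D.V2 (y + (0, 1)))⁻¹ * (D.V3 y)⁻¹) *
          (B2⁻¹ * A3⁻¹) = A2 * B3 * (z * (D.V2 y * D.V3 (y + (1, 0)) * (D.V2 (y + (0, 1)))⁻¹ *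
            (D.V3 y)⁻¹)) * (B2⁻¹ * A3⁻¹) := by group
    rw [e3, h]
    group
  rw [e]
  -- the lengths
  have n2 : ‖(D.q2 s y).1 - (D.p y).1‖ ≤ ε := by
    have := D.q2_lip s 0 y
    rw [D.q2_zero, sub_zero, abs_of_nonneg hs0] at this
    exact this.trans (by nlinarith)
  have n3 : ‖(D.q3 s y).1 - (D.p y).1‖ ≤ ε := by
    have := D.q3_lip s 0 y
    rw [D.q3_zero, sub_zero, abs_of_nonneg hs0] at this
    exact this.trans (by nlinarith)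
  have m2 : ‖(D.p y).1 - (cj (D.V2 y) (D.p (y + (1, 0)))).1‖ ≤ ε := by
    have := D.q2_lip 0 1 y
    rw [D.q2_zero, D.q2_one] at this
    simpa using this
  have m3 : ‖(D.p y).1 - (cj (D.V3 y) (D.p (y + (0, 1)))).1‖ ≤ ε := by
    have := D.q3_lip 0 1 y
    rw [D.q3_zero, D.q3_one] at this
    simpa using this
  have one_of : ∀ (p q : PT N), ‖q.1 - p.1‖ ≤ ε → dd (G (-a) p * G a q) 1 ≤ 2 * ε := by
    intro p q hpq
    have h1 := dd_mul_left (G a q) (G a p) (G (-a) p)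
    rw [G_neg_mul] at h1
    rw [h1]
    exact (dd_G2 a q p).trans (mul_le_mul_of_nonneg_left hpq (by norm_num))
  have d2 : dd A2 1 ≤ 2 * ε := by rw [hA2]; exact one_of _ _ n2
  have d3 : dd A3 1 ≤ 2 * ε := by rw [hA3]; exact one_of _ _ n3
  have f3 : dd A3 B3 ≤ 6 * ε ^ 2 := by
    rw [hA3, hB3]
    refine (dd_second a _ _ _ _).trans ?_
    have h1 := D.q3_mix s hs0 hs1 y
    rw [norm_sub_rev] at h1
    have h2 := mul_le_mul m2 n3 (norm_nonneg _) hε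
    nlinarith
  have f2 : dd A2 B2 ≤ 6 * ε ^ 2 := by
    rw [hA2, hB2]
    refine (dd_second a _ _ _ _).trans ?_
    have h1 := D.q2_mix s hs0 hs1 y
    rw [norm_sub_rev] at h1
    have h2 := mul_le_mul m3 n2 (norm_nonneg _) hε
    nlinarith
  have g1 : dd (A2 * B3 * B2⁻¹ * A3⁻¹) (A2 * A3 * A2⁻¹ * A3⁻¹) ≤ dd A3 B3 + dd A2 B2 := by
    rw [dd_mul_right]
    refine (dd_mul_mul _ _ _ _).trans ?_
    rw [dd_mul_left, dd_inv, dd_comm B3, dd_comm B2]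
  have g2 := dd_comm_le A2 A3
  have g3 := dd_triangle (A2 * B3 * B2⁻¹ * A3⁻¹) (A2 * A3 * A2⁻¹ * A3⁻¹) 1
  have g4 := mul_le_mul d2 d3 (dd_nonneg _ _) (by positivity)
  nlinarith

end fibre

end

end Run7.h4.DC
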