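import Mathlib
import Pool.Agent.Run7.h4.DC.Pl
import Pool.Agent.Run7.h4.VS.FDefs2

/-!
# The trial vortex
-/

open Matrix
open scoped Matrix.Norms.Frobenius ComplexConjugate

namespace Run7.h4.DC

open Run7.h4.YM Run7.h4.VS

set_option linter.unusedSectionVars false
set_option linter.unusedVariables false

noncomputable section

/-! ### the profile -/

/-- the profile -/
def tcl (m n : ℕ) (t : ZMod n) : ℝ := min 1 (zc t * (n - 1) / m)

section profile

variable {m n : ℕ}

theorem zc_nonneg (hn : 2 ≤ n) (t : ZMod n) : 0 ≤ zc t := by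
  have h2 : (2 : ℝ) ≤ n := by exact_mod_cast hn
  unfold zc
  refine div_nonneg ?_ (by linarith)
  split_ifs with h
  · linarith
  · have : NeZero n := ⟨by omega⟩
    have h1 : 0 < t.val := Nat.pos_of_ne_zero fun h' => h ((ZMod.val_eq_zero t).mp h')
    have h2 : (1 : ℝ) ≤ t.val := by exact_mod_cast h1
    linarith

theorem tcl_nonneg (hn : 2 ≤ n) (t : ZMod n) : 0 ≤ tcl m n t := by
  have h2 : (2 : ℝ) ≤ n := by exact_mod_cast hn
  unfold tcl
  refine le_min zero_le_one (div_nonneg (mul_nonneg (zc_nonneg hn t) (by linarith)) (by positivity))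

theorem tcl_le (t : ZMod n) : tcl m n t ≤ 1 := min_le_left _ _

theorem tcl_zero (hm : 1 ≤ m) (hn : m + 1 ≤ n) : tcl m n (0 : ZMod n) = 1 := by
  have h1 : (m : ℝ) + 1 ≤ n := by exact_mod_cast hn
  have h2 : (1 : ℝ) ≤ m := by exact_mod_cast hm
  unfold tcl
  rw [zc_zero (by omega), one_mul, min_eq_left]
  rw [le_div_iff₀ (by linarith)]
  linarith

theorem tcl_one (hm : 1 ≤ m) (hn : m + 1 ≤ n) : tcl m n (0 + 1 : ZMod n) = 0 := by
  unfold tcl
  rw [zc_one (by omega), zero_mul, zero_div, min_eq_right zero_le_one]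

theorem tcl_succ (hm : 1 ≤ m) (hn : 2 ≤ n) {t : ZMod n} (ht : t ≠ 0) :
    tcl m n t ≤ tcl m n (t + 1) ∧ tcl m n (t + 1) ≤ tcl m n t + 1 / m := by
  have h2 : (1 : ℝ) ≤ m := by exact_mod_cast hm
  have h3 : (2 : ℝ) ≤ n := by exact_mod_cast hn
  unfold tcl
  rw [zc_succ hn ht]
  have e : (zc t + 1 / ((n : ℝ) - 1)) * (n - 1) / m = zc t * (n - 1) / m + 1 / m := by
    have : (n : ℝ) - 1 ≠ 0 := by linarith
    field_simp
  rw [e]
  have h4 : (0 : ℝ) ≤ 1 / m := by positivity
  refine ⟨min_le_min_left _ (by linarith), ?_⟩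
  rw [← min_add_add_right]
  exact le_min ((min_le_left _ _).trans (by linarith)) (min_le_right _ _)

theorem tcl_succ_one (hm : 1 ≤ m) (hn : 2 ≤ n) {t : ZMod n} (ht : t ≠ 0) (h : tcl m n t = 1) :
    tcl m n (t + 1) = 1 := by
  have h1 := (tcl_succ hm hn ht).1
  rw [h] at h1
  exact le_antisymm (tcl_le _) h1

theorem tcl_diff (hm : 1 ≤ m) (hn : 2 ≤ n) {t : ZMod n} (ht : t ≠ 0) :
    |tcl m n (t + 1) - tcl m n t| ≤ 1 / m := by
  obtain ⟨h1, h2⟩ := tcl_succ hm hn ht
  rw [abs_of_nonneg (by linarith)]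
  linarith

theorem tcl_card [NeZero n] (hm : 1 ≤ m) (hn : m + 1 ≤ n) :
    (Finset.univ.filter fun t : ZMod n => tcl m n t ≠ 1).card ≤ m := by
  have h2 : (1 : ℝ) ≤ m := by exact_mod_cast hm
  have h1 : (Finset.univ.filter fun t : ZMod n => tcl m n t ≠ 1) ⊆
      (Finset.range m).image fun i : ℕ => ((i + 1 : ℕ) : ZMod n) := by
    intro t ht
    have ht := (Finset.mem_filter.mp ht).2
    have ht0 : t ≠ 0 := by
      rintro rfl
      exact ht (tcl_zero hm hn)
    have hv : 0 < t.val := Nat.pos_of_ne_zero fun h' => ht0 ((ZMod.val_eq_zero t).mp h')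
    have h3 : zc t * (n - 1) / m < 1 := by
      by_contra hcon
      exact ht (min_eq_left (not_lt.mp hcon))
    have h4 : zc t * ((n : ℝ) - 1) = t.val - 1 := by
      unfold zc
      rw [if_neg ht0]
      have h5 : (m : ℝ) + 1 ≤ n := by exact_mod_cast hn
      have : (n : ℝ) - 1 ≠ 0 := by linarith
      field_simp
    rw [h4, div_lt_one (by linarith)] at h3
    have h5 : t.val < m + 1 := by
      have : (t.val : ℝ) < m + 1 := by linarith
      exact_mod_cast this
    refine Finset.mem_image.mpr ⟨t.val - 1, Finset.mem_range.mpr (by omega), ?_⟩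
    rw [Nat.sub_add_cancel hv, ZMod.natCast_zmod_val]
  refine (Finset.card_le_card h1).trans ?_
  exact Finset.card_image_le.trans (by rw [Finset.card_range])

end profile

/-! ### the configuration -/

section config

variable {N l k : ℕ} [NeZero N] [NeZero l] {ε : ℝ} (D : FD N l k ε) (j : ℕ)

/-- the phase -/
def aj (l j : ℕ) {L : ℕ} (x : ZMod L) : ℝ := 2 * Real.pi * j * tcl l L x

/-- the configuration -/
def cfg (n L : ℕ) : Link n L l → SU N := fun e =>
  (![if e.2.1 = 0 then G (-(aj l j e.2.2.1)) (D.p e.2.2.2) else 1,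
    if e.2.2.1 = 0 then 1 else
      G (tcl l n e.2.1 * (aj l j (e.2.2.1 + 1) - aj l j e.2.2.1)) (D.p e.2.2.2),
    U2 D (aj l j e.2.2.1) (tcl l n e.2.1) e.2.2.2,
    U3 D (aj l j e.2.2.1) (tcl l n e.2.1) e.2.2.2] : Fin 4 → SU N) e.1

variable {n L : ℕ} (t : ZMod n) (x : ZMod L) (y : ZMod l × ZMod l)

theorem cfg0 : cfg D j n L (0, t, x, y) = if t = 0 then G (-(aj l j x)) (D.p y) else 1 := rfl
theorem cfg1 : cfg D j n L (1, t, x, y) = if x = 0 then 1 else
      G (tcl l n t * (aj l j (x + 1) - aj l j x)) (D.p y) := rfl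
theorem cfg2 : cfg D j n L (2, t, x, y) = U2 D (aj l j x) (tcl l n t) y := rfl
theorem cfg3 : cfg D j n L (3, t, x, y) = U3 D (aj l j x) (tcl l n t) y := rfl

theorem pq01 (U : Link n L l → SU N) : plaq U (t, x, y) 0 1 = U (0, t, x, y) * U (1, t + 1, x, y) *
    (U (0, t, x + 1, y))⁻¹ * (U (1, t, x, y))⁻¹ := by
  obtain ⟨a, b⟩ := y
  unfold plaq dir; simp
theorem pq02 (U : Link n L l → SU N) : plaq U (t, x, y) 0 2 = U (0, t, x, y) * U (2, t + 1, x, y) *
    (U (0, t, x, y + (1, 0)))⁻¹ * (U (2, t, x, y))⁻¹ := by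
  obtain ⟨a, b⟩ := y
  unfold plaq dir; simp
theorem pq03 (U : Link n L l → SU N) : plaq U (t, x, y) 0 3 = U (0, t, x, y) * U (3, t + 1, x, y) *
    (U (0, t, x, y + (0, 1)))⁻¹ * (U (3, t, x, y))⁻¹ := by
  obtain ⟨a, b⟩ := y
  unfold plaq dir; simp
theorem pq12 (U : Link n L l → SU N) : plaq U (t, x, y) 1 2 = U (1, t, x, y) * U (2, t, x + 1, y) *
    (U (1, t, x, y + (1, 0)))⁻¹ * (U (2, t, x, y))⁻¹ := by
  obtain ⟨a, b⟩ := y
  unfold plaq dir; simp
theorem pq13 (U : Link n L l → SU N) : plaq U (t, x, y) 1 3 = U (1, t, x, y) * U (3, t, x + 1, y) *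
    (U (1, t, x, y + (0, 1)))⁻¹ * (U (3, t, x, y))⁻¹ := by
  obtain ⟨a, b⟩ := y
  unfold plaq dir; simp
theorem pq23 (U : Link n L l → SU N) : plaq U (t, x, y) 2 3 = U (2, t, x, y) *
    U (3, t, x, y + (1, 0)) * (U (2, t, x, y + (0, 1)))⁻¹ * (U (3, t, x, y))⁻¹ := by
  obtain ⟨a, b⟩ := y
  unfold plaq dir; simp

theorem aj_one {x : ZMod L} (h : tcl l L x = 1) : aj l j x = 2 * Real.pi * j := by
  unfold aj; rw [h, mul_one]

theorem aj_diff (hl : 1 ≤ l) (hL : 2 ≤ L) {x : ZMod L} (hx : x ≠ 0) :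
    |aj l j (x + 1) - aj l j x| ≤ 2 * Real.pi * j / l := by
  have h := tcl_diff hl hL hx
  unfold aj
  rw [← mul_sub, abs_mul, abs_of_nonneg (by positivity)]
  have := mul_le_mul_of_nonneg_left h (by positivity : (0 : ℝ) ≤ 2 * Real.pi * j)
  refine this.trans (le_of_eq (by ring))

/-- outside of the core nothing happens -/
def Core (l : ℕ) {n L : ℕ} (t : ZMod n) (x : ZMod L) : Prop := tcl l n t ≠ 1 ∧ tcl l L x ≠ 1

open Classical in
theorem aw_of_dd {g : SU N} {R : Prop} {M : ℝ} {l : ℕ} (h1 : ¬R → dd g 1 ≤ 0)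
    (h2 : R → dd g 1 ≤ M / (l : ℝ) ^ 2) : aw 1 g ≤ if R then M ^ 2 / (2 * (l : ℝ) ^ 4) else 0 := by
  rw [aw_one_eq]
  have h0 := dd_nonneg g 1
  split_ifs with h
  · have h3 := h2 h
    have h4 := pow_le_pow_left₀ h0 h3 2
    have e : M ^ 2 / (2 * (l : ℝ) ^ 4) = (M / (l : ℝ) ^ 2) ^ 2 / 2 := by ring
    rw [e]
    linarith
  · have h3 := h1 h
    have h4 : dd g 1 = 0 := le_antisymm h3 h0
    rw [h4]
    norm_num

variable {D j t x y}

open Classical in
theorem b01 (hl : 1 ≤ l) (hn : l + 1 ≤ n) (hL : l + 1 ≤ L) {M : ℝ}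
    (hM : 6 * Real.pi * j ≤ M) :
    aw (twist2 N k j (t, x, y) 0 1) (plaq (cfg D j n L) (t, x, y) 0 1) ≤
      if Core l t x then M ^ 2 / (2 * (l : ℝ) ^ 4) else 0 := by
  have hlr : (1 : ℝ) ≤ l := by exact_mod_cast hl
  rw [pq01, cfg0, cfg0, cfg1, cfg1]
  have htw : twist2 N k j (t, x, y) 0 1 = if t = 0 ∧ x = 0 then
      Complex.exp (2 * Real.pi * Complex.I * (j / N)) else 1 := by
    unfold twist2
    simp
  rw [htw]
  by_cases ht : t = 0
  · have hnc : ¬ Core l t x := fun h => h.1 (by rw [ht]; exact tcl_zero hl hn)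
    rw [if_neg hnc]
    subst ht
    rw [tcl_zero hl hn, tcl_one hl hn]
    by_cases hx : x = 0
    · subst hx
      simp only [if_true, and_self, inv_one, mul_one]
      have ea : aj l j (0 : ZMod L) = 2 * Real.pi * j := aj_one j (tcl_zero hl hL)
      have eb : aj l j (0 + 1 : ZMod L) = 0 := by unfold aj; rw [tcl_one hl hL, mul_zero]
      rw [ea, eb, neg_zero, G_zero, inv_one, mul_one, ← G_inv]
      unfold aw
      rw [coe_inv', G_two_pi, star_smul, star_one, Matrix.trace_smul, Matrix.trace_one, smul_eq_mul,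
        Fintype.card_fin, ← mul_assoc]
      have h1 : Complex.exp (2 * Real.pi * Complex.I * (j / N)) *
          star (Complex.exp (2 * Real.pi * Complex.I * (j / N))) = 1 := by
        rw [RCLike.star_def, Complex.mul_conj, Complex.normSq_eq_norm_sq]
        have e : 2 * (Real.pi : ℂ) * Complex.I * (j / N) =
            ((2 * Real.pi * (j / N) : ℝ) : ℂ) * Complex.I := by push_cast; ring
        rw [e, Complex.norm_exp_ofReal_mul_I]
        simp
      rw [h1, one_mul, Complex.natCast_re, sub_self]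
    · rw [if_neg (fun h => hx h.2), if_neg hx, if_neg hx, if_pos rfl, if_pos rfl, zero_mul, G_zero,
        mul_one, one_mul, G_inv, G_inv, G_add, G_add]
      have e : -aj l j x + - -aj l j (x + 1) + -(aj l j (x + 1) - aj l j x) = 0 := by ring
      rw [e, G_zero, aw_one_eq, dd_self]
      norm_num
  · rw [if_neg (fun h => ht h.1), if_neg ht, if_neg ht]
    refine aw_of_dd ?_ ?_
    · intro hc
      by_cases hx : x = 0
      · rw [if_pos hx, if_pos hx]
        simp only [one_mul, inv_one, mul_one]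
        rw [dd_self]
      · rw [if_neg hx, if_neg hx]
        have hc' : tcl l n t = 1 ∨ tcl l L x = 1 := by
          unfold Core at hc
          tauto
        have e : G (tcl l n (t + 1) * (aj l j (x + 1) - aj l j x)) (D.p y) =
            G (tcl l n t * (aj l j (x + 1) - aj l j x)) (D.p y) := by
          rcases hc' with h | h
          · rw [h, tcl_succ_one hl (by omega) ht h]
          · rw [aj_one j h, aj_one j (tcl_succ_one hl (by omega) hx h), sub_self, mul_zero, mul_zero]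
        rw [e]
        simp only [one_mul, inv_one, mul_one, mul_inv_cancel]
        rw [dd_self]
    · intro hc
      by_cases hx : x = 0
      · exact absurd (by rw [hx]; exact tcl_zero hl hL) hc.2
      · rw [if_neg hx, if_neg hx, one_mul, inv_one, mul_one, G_inv, G_add]
        refine (dd_G_one _ _).trans ?_
        have h1 := D.norm_p y
        have h2 := tcl_diff hl (show 2 ≤ n by omega) ht
        have h3 := aj_diff j hl (show 2 ≤ L by omega) hx
        have e : tcl l n (t + 1) * (aj l j (x + 1) - aj l j x) +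
            -(tcl l n t * (aj l j (x + 1) - aj l j x)) =
            (tcl l n (t + 1) - tcl l n t) * (aj l j (x + 1) - aj l j x) := by ring
        rw [e, abs_mul]
        have h4 := mul_le_mul h2 h3 (abs_nonneg _) (by positivity)
        have h5 := mul_le_mul h4 (show 1 + ‖(D.p y).1‖ ≤ 3 by linarith) (by positivity)
          (by positivity)
        refine h5.trans ?_
        rw [le_div_iff₀ (by positivity)]
        refine le_trans (le_of_eq ?_) hM
        field_simp
        ring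

open Classical in
theorem b02 (hl : 1 ≤ l) (hn : l + 1 ≤ n) (hL : l + 1 ≤ L) (hε : 0 ≤ ε) {M : ℝ}
    (hM : 2 * (ε * l) ≤ M) :
    aw (twist2 N k j (t, x, y) 0 2) (plaq (cfg D j n L) (t, x, y) 0 2) ≤
      if Core l t x then M ^ 2 / (2 * (l : ℝ) ^ 4) else 0 := by
  have hlr : (1 : ℝ) ≤ l := by exact_mod_cast hl
  rw [pq02, cfg0, cfg0, cfg2, cfg2]
  have htw : twist2 N k j (t, x, y) 0 2 = 1 := by
    unfold twist2
    simp
  rw [htw]
  by_cases ht : t = 0
  · have hnc : ¬ Core l t x := fun h => h.1 (by rw [ht]; exact tcl_zero hl hn)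
    rw [if_neg hnc]
    subst ht
    rw [tcl_zero hl hn, tcl_one hl hn, if_pos rfl, if_pos rfl]
    have h := pl0_zero (p := D.p y) (p' := D.p (y + (1, 0))) (q := fun s => D.q2 s y) (V := D.V2 y)
      (D.q2_zero y) (D.q2_one y) (aj l j x)
    unfold U2
    rw [h, aw_one_eq, dd_self]
    norm_num
  · rw [if_neg ht, if_neg ht]
    unfold U2
    refine aw_of_dd ?_ ?_
    · intro hc
      have hc' : tcl l n t = 1 ∨ tcl l L x = 1 := by
        unfold Core at hc
        tauto
      rcases hc' with h | h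
      · rw [h, tcl_succ_one hl (by omega) ht h]
        simp only [one_mul, inv_one, mul_one, mul_inv_cancel]
        rw [dd_self]
      · rw [aj_one j h, A_center, A_center]
        simp only [one_mul, inv_one, mul_one, mul_inv_cancel]
        rw [dd_self]
    · intro hc
      have h := pl0_gen (p := D.p y) (V := D.V2 y) (q := fun s => D.q2 s y)
        (fun s s' => D.q2_lip s s' y) (aj l j x) (tcl l n t) (tcl l n (t + 1))
      refine h.trans ?_
      have h2 := tcl_diff hl (show 2 ≤ n by omega) ht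
      have h3 := mul_le_mul_of_nonneg_left h2 hε
      rw [le_div_iff₀ (by positivity)]
      have h4 : 2 * (ε * |tcl l n (t + 1) - tcl l n t|) * (l : ℝ) ^ 2 ≤
          2 * (ε * (1 / l)) * (l : ℝ) ^ 2 :=
        mul_le_mul_of_nonneg_right (mul_le_mul_of_nonneg_left h3 (by norm_num)) (by positivity)
      refine h4.trans (le_trans (le_of_eq ?_) hM)
      field_simp

open Classical in
theorem b03 (hl : 1 ≤ l) (hn : l + 1 ≤ n) (hL : l + 1 ≤ L) (hε : 0 ≤ ε) {M : ℝ}
    (hM : 2 * (ε * l) ≤ M) :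
    aw (twist2 N k j (t, x, y) 0 3) (plaq (cfg D j n L) (t, x, y) 0 3) ≤
      if Core l t x then M ^ 2 / (2 * (l : ℝ) ^ 4) else 0 := by
  have hlr : (1 : ℝ) ≤ l := by exact_mod_cast hl
  rw [pq03, cfg0, cfg0, cfg3, cfg3]
  have htw : twist2 N k j (t, x, y) 0 3 = 1 := by
    unfold twist2
    simp
  rw [htw]
  by_cases ht : t = 0
  · have hnc : ¬ Core l t x := fun h => h.1 (by rw [ht]; exact tcl_zero hl hn)
    rw [if_neg hnc]
    subst ht
    rw [tcl_zero hl hn, tcl_one hl hn, if_pos rfl, if_pos rfl]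
    have h := pl0_zero (p := D.p y) (p' := D.p (y + (0, 1))) (q := fun s => D.q3 s y) (V := D.V3 y)
      (D.q3_zero y) (D.q3_one y) (aj l j x)
    unfold U3
    rw [h, aw_one_eq, dd_self]
    norm_num
  · rw [if_neg ht, if_neg ht]
    unfold U3
    refine aw_of_dd ?_ ?_
    · intro hc
      have hc' : tcl l n t = 1 ∨ tcl l L x = 1 := by
        unfold Core at hc
        tauto
      rcases hc' with h | h
      · rw [h, tcl_succ_one hl (by omega) ht h]
        simp only [one_mul, inv_one, mul_one, mul_inv_cancel]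
        rw [dd_self]
      · rw [aj_one j h, A_center, A_center]
        simp only [one_mul, inv_one, mul_one, mul_inv_cancel]
        rw [dd_self]
    · intro hc
      have h := pl0_gen (p := D.p y) (V := D.V3 y) (q := fun s => D.q3 s y)
        (fun s s' => D.q3_lip s s' y) (aj l j x) (tcl l n t) (tcl l n (t + 1))
      refine h.trans ?_
      have h2 := tcl_diff hl (show 2 ≤ n by omega) ht
      have h3 := mul_le_mul_of_nonneg_left h2 hε
      rw [le_div_iff₀ (by positivity)]
      have h4 : 2 * (ε * |tcl l n (t + 1) - tcl l n t|) * (l : ℝ) ^ 2 ≤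
          2 * (ε * (1 / l)) * (l : ℝ) ^ 2 :=
        mul_le_mul_of_nonneg_right (mul_le_mul_of_nonneg_left h3 (by norm_num)) (by positivity)
      refine h4.trans (le_trans (le_of_eq ?_) hM)
      field_simp

open Classical in
/-- the common part of the planes `(1, 2)` and `(1, 3)` -/
theorem b1_gen (hl : 1 ≤ l) (hn : l + 1 ≤ n) (hL : l + 1 ≤ L) (hε : 0 ≤ ε) {M : ℝ}
    (hM : 4 * Real.pi * j * (ε * l) ≤ M) {p p' : PT N} {q : ℝ → PT N} {V : SU N}
    (h0 : q 0 = p) (h1 : q 1 = cj V p') (hlip : ∀ s s', ‖(q s).1 - (q s').1‖ ≤ ε * |s - s'|) :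
    aw 1 ((if x = 0 then 1 else G (tcl l n t * (aj l j (x + 1) - aj l j x)) p) *
      (G (-(aj l j (x + 1))) p * G (aj l j (x + 1)) (q (tcl l n t)) * V) *
      (if x = 0 then 1 else G (tcl l n t * (aj l j (x + 1) - aj l j x)) p')⁻¹ *
      (G (-(aj l j x)) p * G (aj l j x) (q (tcl l n t)) * V)⁻¹) ≤
      if Core l t x then M ^ 2 / (2 * (l : ℝ) ^ 4) else 0 := by
  have hlr : (1 : ℝ) ≤ l := by exact_mod_cast hl
  by_cases hx : x = 0
  · have hnc : ¬ Core l t x := fun h => h.2 (by rw [hx]; exact tcl_zero hl hL)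
    rw [if_neg hnc]
    subst hx
    have ea : aj l j (0 : ZMod L) = 2 * Real.pi * j := aj_one j (tcl_zero hl hL)
    have eb : aj l j (0 + 1 : ZMod L) = 0 := by unfold aj; rw [tcl_one hl hL, mul_zero]
    rw [if_pos rfl, if_pos rfl, ea, eb, A_center, neg_zero, G_zero, G_zero]
    simp only [one_mul, inv_one, mul_one, mul_inv_cancel]
    rw [aw_one_eq, dd_self]
    norm_num
  · rw [if_neg hx, if_neg hx]
    obtain ⟨Δ, hΔ⟩ : ∃ Δ : ℝ, Δ = aj l j (x + 1) - aj l j x := ⟨_, rfl⟩
    have e1 : aj l j (x + 1) = aj l j x + Δ := by rw [hΔ]; ring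
    rw [← hΔ, e1]
    have hn2 : 2 ≤ n := by omega
    have h := pl1_gen (p := p) (p' := p') (q := q) (V := V) hε h0 h1 hlip (aj l j x) Δ
      (tcl_nonneg (m := l) hn2 t) (tcl_le t)
    have h3 := aj_diff j hl (show 2 ≤ L by omega) hx
    rw [← hΔ] at h3
    refine aw_of_dd ?_ ?_
    · intro hc
      have hc' : tcl l n t = 1 ∨ tcl l L x = 1 := by
        unfold Core at hc
        tauto
      refine h.trans ?_
      rcases hc' with h' | h'
      · rw [h', sub_self, mul_zero, zero_mul, zero_mul]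
      · have : Δ = 0 := by
          rw [hΔ, aj_one j h', aj_one j (tcl_succ_one hl (by omega) hx h'), sub_self]
        rw [this, abs_zero, mul_zero, zero_mul]
    · intro hc
      refine h.trans ?_
      have h4 := tcl_nonneg (m := l) hn2 t
      have h5 : 2 * (1 - tcl l n t) * |Δ| * ε ≤ 2 * |Δ| * ε := by
        have : 0 ≤ |Δ| * ε := mul_nonneg (abs_nonneg _) hε
        nlinarith
      have h6 := mul_le_mul_of_nonneg_right h3 hε
      rw [le_div_iff₀ (by positivity)]
      have h7 : 2 * (1 - tcl l n t) * |Δ| * ε * (l : ℝ) ^ 2 ≤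
          2 * (2 * Real.pi * j / l * ε) * (l : ℝ) ^ 2 :=
        mul_le_mul_of_nonneg_right (h5.trans (by linarith)) (by positivity)
      refine h7.trans (le_trans (le_of_eq ?_) hM)
      field_simp
      ring

open Classical in
theorem b12 (hl : 1 ≤ l) (hn : l + 1 ≤ n) (hL : l + 1 ≤ L) (hε : 0 ≤ ε) {M : ℝ}
    (hM : 4 * Real.pi * j * (ε * l) ≤ M) :
    aw (twist2 N k j (t, x, y) 1 2) (plaq (cfg D j n L) (t, x, y) 1 2) ≤
      if Core l t x then M ^ 2 / (2 * (l : ℝ) ^ 4) else 0 := by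
  rw [pq12, cfg1, cfg1, cfg2, cfg2]
  have htw : twist2 N k j (t, x, y) 1 2 = 1 := by
    unfold twist2
    simp
  rw [htw]
  exact b1_gen (p := D.p y) (p' := D.p (y + (1, 0))) (q := fun s => D.q2 s y) (V := D.V2 y)
    hl hn hL hε hM (D.q2_zero y) (D.q2_one y) (fun s s' => D.q2_lip s s' y)

open Classical in
theorem b13 (hl : 1 ≤ l) (hn : l + 1 ≤ n) (hL : l + 1 ≤ L) (hε : 0 ≤ ε) {M : ℝ}
    (hM : 4 * Real.pi * j * (ε * l) ≤ M) :
    aw (twist2 N k j (t, x, y) 1 3) (plaq (cfg D j n L) (t, x, y) 1 3) ≤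
      if Core l t x then M ^ 2 / (2 * (l : ℝ) ^ 4) else 0 := by
  rw [pq13, cfg1, cfg1, cfg3, cfg3]
  have htw : twist2 N k j (t, x, y) 1 3 = 1 := by
    unfold twist2
    simp
  rw [htw]
  exact b1_gen (p := D.p y) (p' := D.p (y + (0, 1))) (q := fun s => D.q3 s y) (V := D.V3 y)
    hl hn hL hε hM (D.q3_zero y) (D.q3_one y) (fun s s' => D.q3_lip s s' y)

open Classical in
theorem b23 (hζ : IsPrimitiveRoot (om N k) N) (hl : 1 ≤ l) (hn : l + 1 ≤ n) (hL : l + 1 ≤ L)
    (hε : 0 ≤ ε) {M : ℝ} (hM : 20 * (ε * l) ^ 2 ≤ M) :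
    aw (twist2 N k j (t, x, y) 2 3) (plaq (cfg D j n L) (t, x, y) 2 3) ≤
      if Core l t x then M ^ 2 / (2 * (l : ℝ) ^ 4) else 0 := by
  have hlr : (1 : ℝ) ≤ l := by exact_mod_cast hl
  rw [pq23, cfg2, cfg2, cfg3, cfg3]
  have htw : twist2 N k j (t, x, y) 2 3 = twf N k y := by
    unfold twist2 twf
    simp
  rw [htw, aw_twf hζ]
  refine aw_of_dd ?_ ?_
  · intro hc
    have hc' : tcl l n t = 1 ∨ tcl l L x = 1 := by
      unfold Core at hc
      tauto
    rcases hc' with h | h
    · rw [h]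
      have := P23_one D hζ (aj l j x) y
      unfold P23 at this
      rw [this, dd_self]
    · rw [aj_one j h]
      have := P23_center D hζ j (tcl l n t) y
      unfold P23 at this
      rw [this, dd_self]
  · intro hc
    have h := P23_gen D hζ hε (aj l j x) (tcl_nonneg (m := l) (show 2 ≤ n by omega) t) (tcl_le t) y
    unfold P23 at h
    refine h.trans ?_
    rw [le_div_iff₀ (by positivity)]
    refine le_trans (le_of_eq ?_) hM
    ring

end config

end

end Run7.h4.DC
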