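import Mathlib
import Pool.Agent.Run7.h4.DC.Cfg
import Pool.Agent.Run7.h897.DC.Dec

/-!
# The minimal action is bounded uniformly in the size of the fibre
-/

open Matrix
open scoped Matrix.Norms.Frobenius ComplexConjugate

namespace Run7.h4.DC

open Run7.h4.YM Run7.h4.VS

set_option linter.unusedSectionVars false
set_option linter.unusedVariables false

noncomputable section

theorem action2_eq {N n L l : ℕ} [NeZero n] [NeZero L] [NeZero l] (k j : ℕ)
    (U : Link n L l → SU N) : action2 k j U = ∑ t : ZMod n, ∑ x : ZMod L, ∑ y : ZMod l × ZMod l,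
      (aw (twist2 N k j (t, x, y) 0 1) (plaq U (t, x, y) 0 1) +
       aw (twist2 N k j (t, x, y) 0 2) (plaq U (t, x, y) 0 2) +
       aw (twist2 N k j (t, x, y) 0 3) (plaq U (t, x, y) 0 3) +
       aw (twist2 N k j (t, x, y) 1 2) (plaq U (t, x, y) 1 2) +
       aw (twist2 N k j (t, x, y) 1 3) (plaq U (t, x, y) 1 3) +
       aw (twist2 N k j (t, x, y) 2 3) (plaq U (t, x, y) 2 3)) := by
  unfold action2
  have hI0 : (Finset.Ioi (0 : Fin 4)) = {1, 2, 3} := by decide
  have hI1 : (Finset.Ioi (1 : Fin 4)) = {2, 3} := by decide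
  have hI2 : (Finset.Ioi (2 : Fin 4)) = {3} := by decide
  have hI3 : (Finset.Ioi (3 : Fin 4)) = ∅ := by decide
  rw [Fintype.sum_prod_type]
  refine Finset.sum_congr rfl fun t _ => ?_
  rw [Fintype.sum_prod_type]
  refine Finset.sum_congr rfl fun x _ => ?_
  refine Finset.sum_congr rfl fun y _ => ?_
  rw [Fin.sum_univ_four, hI0, hI1, hI2, hI3]
  rw [Finset.sum_insert (by decide), Finset.sum_insert (by decide), Finset.sum_singleton,
    Finset.sum_insert (by decide), Finset.sum_singleton, Finset.sum_singleton, Finset.sum_empty]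
  unfold aw
  ring

theorem trial (N k : ℕ) [NeZero N] (hN : 2 ≤ N) (hk : Nat.Coprime k N) :
    ∃ C : ℝ, 0 < C ∧ ∀ (l : ℕ) [NeZero l], 2 ≤ l → ∀ (n L : ℕ) [NeZero n] [NeZero L], l + 1 ≤ n →
      l + 1 ≤ L → ∀ j : ℕ, j ≤ N → minAction N n L l k j ≤ C := by
  have hζ := om_prim (N := N) hk
  obtain ⟨K, hK, hFD⟩ := exists_FD N k hN hk
  have hpi := Real.pi_pos
  have hNr : (2 : ℝ) ≤ N := by exact_mod_cast hN
  obtain ⟨M, hM⟩ : ∃ M : ℝ, M = 6 * Real.pi * N + 4 * K + 8 * Real.pi * N * K + 80 * K ^ 2 :=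
    ⟨_, rfl⟩
  have hM0 : 0 < M := by rw [hM]; positivity
  refine ⟨3 * M ^ 2, by positivity, fun l _ hl n L _ _ hn hL j hj => ?_⟩
  obtain ⟨D⟩ := hFD l hl
  have hlr : (2 : ℝ) ≤ l := by exact_mod_cast hl
  have hjr : (j : ℝ) ≤ N := by exact_mod_cast hj
  have hj0 : (0 : ℝ) ≤ j := Nat.cast_nonneg j
  have hε : 0 ≤ K / ((l : ℝ) - 1) := div_nonneg hK.le (by linarith)
  have hεl : K / ((l : ℝ) - 1) * l ≤ 2 * K := by
    rw [div_mul_eq_mul_div, div_le_iff₀ (by linarith)]
    nlinarith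
  have hεl0 : 0 ≤ K / ((l : ℝ) - 1) * l := mul_nonneg hε (by linarith)
  have hl1 : 1 ≤ l := by omega
  have m1 : 6 * Real.pi * j ≤ M := by
    rw [hM]
    have : 6 * Real.pi * (j : ℝ) ≤ 6 * Real.pi * N := mul_le_mul_of_nonneg_left hjr (by positivity)
    have : 0 ≤ 8 * Real.pi * N * K + 80 * K ^ 2 := by positivity
    linarith
  have m2 : 2 * (K / ((l : ℝ) - 1) * l) ≤ M := by
    rw [hM]
    have : 0 ≤ 6 * Real.pi * N + 8 * Real.pi * N * K + 80 * K ^ 2 := by positivity
    linarith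
  have m3 : 4 * Real.pi * j * (K / ((l : ℝ) - 1) * l) ≤ M := by
    rw [hM]
    have h1 : 4 * Real.pi * (j : ℝ) ≤ 4 * Real.pi * N := mul_le_mul_of_nonneg_left hjr (by positivity)
    have h2 := mul_le_mul h1 hεl hεl0 (by positivity)
    have : 0 ≤ 6 * Real.pi * N + 4 * K + 80 * K ^ 2 := by positivity
    linarith
  have m4 : 20 * (K / ((l : ℝ) - 1) * l) ^ 2 ≤ M := by
    rw [hM]
    have h2 := pow_le_pow_left₀ hεl0 hεl 2
    have : 0 ≤ 6 * Real.pi * N + 4 * K + 8 * Real.pi * N * K := by positivity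
    nlinarith
  refine (minAction_le k j (cfg D j n L)).trans ?_
  rw [action2_eq]
  classical
  obtain ⟨B, hB⟩ : ∃ B : ℝ, B = M ^ 2 / (2 * (l : ℝ) ^ 4) := ⟨_, rfl⟩
  have hB0 : 0 ≤ B := by rw [hB]; positivity
  have key : ∀ (t : ZMod n) (x : ZMod L) (y : ZMod l × ZMod l),
      (aw (twist2 N k j (t, x, y) 0 1) (plaq (cfg D j n L) (t, x, y) 0 1) +
       aw (twist2 N k j (t, x, y) 0 2) (plaq (cfg D j n L) (t, x, y) 0 2) +
       aw (twist2 N k j (t, x, y) 0 3) (plaq (cfg D j n L) (t, x, y) 0 3) +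
       aw (twist2 N k j (t, x, y) 1 2) (plaq (cfg D j n L) (t, x, y) 1 2) +
       aw (twist2 N k j (t, x, y) 1 3) (plaq (cfg D j n L) (t, x, y) 1 3) +
       aw (twist2 N k j (t, x, y) 2 3) (plaq (cfg D j n L) (t, x, y) 2 3)) ≤
      6 * (B * ((if tcl l n t ≠ 1 then 1 else 0) * (if tcl l L x ≠ 1 then 1 else 0))) := by
    intro t x y
    have h01 := b01 (k := k) (D := D) (j := j) (t := t) (x := x) (y := y) hl1 hn hL m1
    have h02 := b02 (k := k) (D := D) (j := j) (t := t) (x := x) (y := y) hl1 hn hL hε m2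
    have h03 := b03 (k := k) (D := D) (j := j) (t := t) (x := x) (y := y) hl1 hn hL hε m2
    have h12 := b12 (k := k) (D := D) (j := j) (t := t) (x := x) (y := y) hl1 hn hL hε m3
    have h13 := b13 (k := k) (D := D) (j := j) (t := t) (x := x) (y := y) hl1 hn hL hε m3
    have h23 := b23 (k := k) (D := D) (j := j) (t := t) (x := x) (y := y) hζ hl1 hn hL hε m4
    rw [← hB] at h01 h02 h03 h12 h13 h23
    have e : (if Core l t x then B else 0) =
        B * ((if tcl l n t ≠ 1 then 1 else 0) * (if tcl l L x ≠ 1 then 1 else 0)) := by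
      unfold Core
      by_cases h1 : tcl l n t ≠ 1
      · by_cases h2 : tcl l L x ≠ 1
        · rw [if_pos ⟨h1, h2⟩, if_pos h1, if_pos h2]; ring
        · rw [if_neg (fun h => h2 h.2), if_neg h2]; ring
      · rw [if_neg (fun h => h1 h.1), if_neg h1]; ring
    rw [e] at h01 h02 h03 h12 h13 h23
    linarith
  have h1 := Finset.sum_le_sum fun (t : ZMod n) (_ : t ∈ Finset.univ) =>
    Finset.sum_le_sum fun (x : ZMod L) (_ : x ∈ Finset.univ) =>
      Finset.sum_le_sum fun (y : ZMod l × ZMod l) (_ : y ∈ Finset.univ) => key t x y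
  refine h1.trans ?_
  have hcard : (Finset.univ : Finset (ZMod l × ZMod l)).card = l ^ 2 := by
    simp [ZMod.card]; ring
  have e2 : ∑ t : ZMod n, ∑ x : ZMod L, ∑ _y : ZMod l × ZMod l,
      6 * (B * ((if tcl l n t ≠ 1 then (1 : ℝ) else 0) * (if tcl l L x ≠ 1 then 1 else 0))) =
      6 * B * l ^ 2 * (((Finset.univ.filter fun t : ZMod n => tcl l n t ≠ 1).card : ℝ) *
        ((Finset.univ.filter fun x : ZMod L => tcl l L x ≠ 1).card : ℝ)) := by
    simp only [Finset.sum_const, hcard, nsmul_eq_mul]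
    have a1 : ((Finset.univ.filter fun t : ZMod n => tcl l n t ≠ 1).card : ℝ) =
        ∑ t : ZMod n, if tcl l n t ≠ 1 then (1 : ℝ) else 0 := by
      rw [Finset.sum_ite, Finset.sum_const, Finset.sum_const_zero, add_zero, nsmul_eq_mul, mul_one]
    have a2 : ((Finset.univ.filter fun x : ZMod L => tcl l L x ≠ 1).card : ℝ) =
        ∑ x : ZMod L, if tcl l L x ≠ 1 then (1 : ℝ) else 0 := by
      rw [Finset.sum_ite, Finset.sum_const, Finset.sum_const_zero, add_zero, nsmul_eq_mul, mul_one]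
    rw [a1, a2, Finset.sum_mul_sum, Finset.mul_sum]
    refine Finset.sum_congr rfl fun t _ => ?_
    rw [Finset.mul_sum]
    refine Finset.sum_congr rfl fun x _ => ?_
    push_cast
    ring
  rw [e2]
  have c1 : ((Finset.univ.filter fun t : ZMod n => tcl l n t ≠ 1).card : ℝ) ≤ l := by
    exact_mod_cast tcl_card hl1 hn
  have c2 : ((Finset.univ.filter fun x : ZMod L => tcl l L x ≠ 1).card : ℝ) ≤ l := by
    exact_mod_cast tcl_card hl1 hL
  have c3 := mul_le_mul c1 c2 (Nat.cast_nonneg _) (by linarith)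
  have c4 := mul_le_mul_of_nonneg_left c3 (by positivity : 0 ≤ 6 * B * (l : ℝ) ^ 2)
  refine c4.trans (le_of_eq ?_)
  rw [hB]
  field_simp
  ring

end

end Run7.h4.DC
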