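import Mathlib
import Pool.Agent.Run7.h4.DC.Tri
import Pool.Agent.Run7.h4.VS.Joint4

/-!
# The actions of the vortices are bounded uniformly in the size of the fibre
-/

open MeasureTheory Matrix Filter Topology

namespace Run7.h4.DC

open Run7.h4.YM Run7.h4.VS

set_option linter.unusedSectionVars false
set_option linter.unusedVariables false

noncomputable section

theorem exp_mod (N j : ℕ) [NeZero N] : Complex.exp (2 * Real.pi * Complex.I * (j / N)) =
    Complex.exp (2 * Real.pi * Complex.I * ((j % N : ℕ) / N)) := by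
  have hN : (N : ℂ) ≠ 0 := by exact_mod_cast NeZero.ne N
  obtain ⟨q, hq⟩ : ∃ q : ℕ, q = j / N := ⟨_, rfl⟩
  obtain ⟨r, hr⟩ : ∃ r : ℕ, r = j % N := ⟨_, rfl⟩
  have h0 : j = N * q + r := by rw [hq, hr]; exact (Nat.div_add_mod j N).symm
  rw [← hr]
  have h1 : (j : ℂ) = (N : ℂ) * (q : ℂ) + (r : ℂ) := by rw [h0]; push_cast; ring
  have h2 : 2 * (Real.pi : ℂ) * Complex.I * (j / N) =
      2 * Real.pi * Complex.I * (r / N) + ((q : ℤ) : ℂ) * (2 * Real.pi * Complex.I) := by
    rw [h1]
    push_cast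
    field_simp
    ring
  rw [h2, Complex.exp_add, Complex.exp_int_mul_two_pi_mul_I, mul_one]

theorem action2_mod {N n L l : ℕ} [NeZero N] [NeZero n] [NeZero L] [NeZero l] (k j : ℕ)
    (U : Link n L l → SU N) : action2 k j U = action2 k (j % N) U := by
  unfold action2 twist2
  rw [exp_mod N j]

theorem minAction_mod (N n L l k j : ℕ) [NeZero N] [NeZero n] [NeZero L] [NeZero l] :
    minAction N n L l k j = minAction N n L l k (j % N) := by
  unfold minAction
  congr 2
  funext U
  exact action2_mod k j U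

theorem minAction_congr (N k j l : ℕ) {n n' L L' : ℕ} [NeZero n] [NeZero n'] [NeZero L] [NeZero L']
    [NeZero l] (h : n = n') (h' : L = L') :
    minAction N n L l k j = minAction N n' L' l k j := by
  subst h
  subst h'
  rfl

/-- the limit of the minimal action -/
def IsLim (N k : ℕ) (S : ℕ → ℕ → ℝ) : Prop := ∀ (l : ℕ) [NeZero l] (j : ℕ),
  Tendsto (fun p : ℕ × ℕ => minAction N (p.1 + 1) (p.2 + 1) l k j) atTop (𝓝 (S l j))

theorem lim_mul {N k : ℕ} {S : ℕ → ℕ → ℝ} (hS : IsLim N k S) (l r j : ℕ) [NeZero l] [NeZero r] :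
    S l j ≤ S (r * l) j := by
  have hr : 1 ≤ r := NeZero.one_le
  have h1 : Tendsto (fun p : ℕ => r * (p + 1) - 1) atTop atTop := by
    refine tendsto_atTop_mono (fun p => ?_) tendsto_id
    have : p + 1 ≤ r * (p + 1) := Nat.le_mul_of_pos_left _ hr
    simp only [id_eq]
    omega
  have h2 : Tendsto (fun p : ℕ × ℕ => (r * (p.1 + 1) - 1, r * (p.2 + 1) - 1)) atTop atTop := by
    rw [← prod_atTop_atTop_eq]
    exact h1.prodMap h1
  have h3 := (hS (r * l) j).comp h2
  refine le_of_tendsto_of_tendsto' (hS l j) h3 fun p => ?_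
  have hp : 0 < r * (p.1 + 1) := by positivity
  have hp' : 0 < r * (p.2 + 1) := by positivity
  refine (minAction_mul N (p.1 + 1) (p.2 + 1) l k j r).trans (le_of_eq ?_)
  exact minAction_congr N k j (r * l) (by simp only; omega) (by simp only; omega)

theorem lim_bound {N k : ℕ} [NeZero N] (hN : 2 ≤ N) (hk : Nat.Coprime k N) :
    ∃ b : ℝ, 0 < b ∧ ∀ S : ℕ → ℕ → ℝ, IsLim N k S → ∀ (l : ℕ) [NeZero l] (j : ℕ), S l j ≤ b := by
  obtain ⟨C, hC, h⟩ := trial N k hN hk
  refine ⟨C, hC, fun S hS => ?_⟩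
  have h2 : ∀ (l : ℕ) [NeZero l], 2 ≤ l → ∀ j : ℕ, S l j ≤ C := by
    intro l _ hl j
    refine le_of_tendsto (hS l j) ?_
    filter_upwards [eventually_ge_atTop (l, l)] with p hp
    rw [minAction_mod]
    exact h l hl (p.1 + 1) (p.2 + 1) (by have := hp.1; simp only at this; omega)
      (by have := hp.2; simp only at this; omega) (j % N)
      (Nat.mod_lt j (NeZero.pos N)).le
  intro l _ j
  have h3 := lim_mul hS l 2 j
  have hl : 1 ≤ l := NeZero.one_le
  exact h3.trans (h2 (2 * l) (by omega) j)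

end

end Run7.h4.DC
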